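import Pool.Agent.H923R2.FZ.Stubs2

set_option autoImplicit false

namespace Pool.Agent.H923R2.FZ.T_UNG2

open Pool.Agent.H923R2.FP Pool.Agent.H923R2.FZ

/-- the grouped family -/
noncomputable abbrev fam {A K : Type} [CStarAlgebra A] (S : K → StarSubalgebra ℂ A) (P : Set K)
    (T : StarSubalgebra ℂ A) : Option {k // k ∉ P} → StarSubalgebra ℂ A :=
  fun o => o.elim T fun k => S k.1

/-- the inclusion of letters -/
def inc {A K : Type} {P : Set K} (z : {k // k ∈ P} × A) : K × A := (z.1.1, z.2)

theorem inc_snd {A K : Type} [CStarAlgebra A] {P : Set K} (u : List ({k // k ∈ P} × A)) :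
    (u.map inc).map Prod.snd = u.map Prod.snd := by
  rw [List.map_map]
  exact List.map_congr_left fun z _ => rfl

/-- the product of a run -/
theorem run_good {A K : Type} [CStarAlgebra A] {τ : A →ₗ[ℂ] ℂ} {S : K → StarSubalgebra ℂ A}
    {P : Set K} {T : StarSubalgebra ℂ A} (hST : ∀ k ∈ P, S k ≤ T)
    (hF : FreeFam τ (fun k : {k // k ∈ P} => S k.1))
    (u : List ({k // k ∈ P} × A)) (hne : u ≠ [])
    (hc : ∀ z ∈ u, z.2 ∈ S z.1 ∧ τ z.2 = 0) (hch : u.IsChain (fun x y => x.1 ≠ y.1)) :
    (u.map Prod.snd).prod ∈ fam S P T none ∧ τ ((u.map Prod.snd).prod) = 0 := by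
  refine ⟨?_, hF u hne hc hch⟩
  apply list_prod_mem
  intro x hx
  obtain ⟨z, hz, rfl⟩ := List.mem_map.1 hx
  exact hST z.1.1 z.1.2 (hc z hz).1

/-- the grouped word -/
theorem group {A K : Type} [CStarAlgebra A] {τ : A →ₗ[ℂ] ℂ} {S : K → StarSubalgebra ℂ A}
    {P : Set K} {T : StarSubalgebra ℂ A} (hST : ∀ k ∈ P, S k ≤ T)
    (hF : FreeFam τ (fun k : {k // k ∈ P} => S k.1)) (w : List (K × A)) :
    ∀ u : List ({k // k ∈ P} × A), (∀ z ∈ u.map inc ++ w, z.2 ∈ S z.1 ∧ τ z.2 = 0) →
      (u.map inc ++ w).IsChain (fun x y => x.1 ≠ y.1) →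
      ∃ g : List (Option {k // k ∉ P} × A),
        (g.map Prod.snd).prod = ((u.map inc ++ w).map Prod.snd).prod ∧
        (∀ z ∈ g, z.2 ∈ fam S P T z.1 ∧ τ z.2 = 0) ∧ g.IsChain (fun x y => x.1 ≠ y.1) ∧
        (g = [] ↔ u.map inc ++ w = []) ∧
        (∀ b ∈ g.head?, ∀ z ∈ (u.map inc ++ w).head?,
          (z.1 ∈ P → b.1 = none) ∧ ∀ h : z.1 ∉ P, b.1 = some ⟨z.1, h⟩) := by
  induction w with
  | nil =>
    intro u hu hch
    rw [List.append_nil] at hu hch ⊢
    by_cases hne : u = []
    · subst hne
      exact ⟨[], rfl, by simp, List.IsChain.nil, by simp, by simp⟩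
    · have hc : ∀ z ∈ u, z.2 ∈ S z.1 ∧ τ z.2 = 0 := fun z hz =>
        hu (inc z) (List.mem_map_of_mem hz)
      have hch' : u.IsChain (fun x y => x.1 ≠ y.1) := by
        rw [List.isChain_map] at hch
        exact hch.imp fun x y h h' => h (congrArg Subtype.val h')
      have hg := run_good hST hF u hne hc hch'
      refine ⟨[(none, (u.map Prod.snd).prod)], ?_, ?_, List.isChain_singleton _, ?_, ?_⟩
      · rw [inc_snd]; simp
      · intro z hz
        rw [List.mem_singleton] at hz
        subst hz
        exact hg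
      · simp [hne]
      · intro b hb z hz
        obtain ⟨y, u', rfl⟩ := List.exists_cons_of_ne_nil hne
        simp only [List.head?_cons, List.map_cons, Option.mem_def, Option.some.injEq] at hb hz
        subst hb
        subst hz
        exact ⟨fun _ => rfl, fun h => absurd y.1.2 h⟩
  | cons z w ih =>
    intro u hu hch
    by_cases hz : z.1 ∈ P
    · -- a letter of the run
      have h1 : (u ++ [((⟨z.1, hz⟩ : {k // k ∈ P}), z.2)]).map inc ++ w = u.map inc ++ z :: w := by
        rw [List.map_append, List.append_assoc]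
        rfl
      have h2 := ih (u ++ [((⟨z.1, hz⟩ : {k // k ∈ P}), z.2)])
      rw [h1] at h2
      exact h2 hu hch
    · -- a single letter
      have hw : ∀ y ∈ ([] : List ({k // k ∈ P} × A)).map inc ++ w, y.2 ∈ S y.1 ∧ τ y.2 = 0 := by
        intro y hy
        exact hu y (List.mem_append_right _ (List.mem_cons_of_mem _ hy))
      have hzw := hch.right_of_append
      rw [List.isChain_cons] at hzw
      obtain ⟨g, hg1, hg2, hg3, hg4, hg5⟩ := ih [] hw hzw.2
      rw [List.map_nil, List.nil_append] at hg1 hg4 hg5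
      have hzc : z.2 ∈ S z.1 ∧ τ z.2 = 0 :=
        hu z (List.mem_append_right _ List.mem_cons_self)
      have hg6 : ((some (⟨z.1, hz⟩ : {k // k ∉ P}), z.2) :: g).IsChain
          (fun x y => x.1 ≠ y.1) := by
        rw [List.isChain_cons]
        refine ⟨fun b hb => ?_, hg3⟩
        have hwne : w ≠ [] := by
          intro h0
          rw [hg4.2 h0] at hb
          simp at hb
        obtain ⟨y, w', rfl⟩ := List.exists_cons_of_ne_nil hwne
        have h1 := hg5 b hb y (by simp)
        have h2 : z.1 ≠ y.1 := hzw.1 y (by simp)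
        show some (⟨z.1, hz⟩ : {k // k ∉ P}) ≠ b.1
        by_cases hy : y.1 ∈ P
        · rw [h1.1 hy]
          simp
        · rw [h1.2 hy]
          intro h
          exact h2 (congrArg Subtype.val (Option.some.inj h))
      have hg7 : ∀ y ∈ (some (⟨z.1, hz⟩ : {k // k ∉ P}), z.2) :: g,
          y.2 ∈ fam S P T y.1 ∧ τ y.2 = 0 := by
        intro y hy
        rcases List.mem_cons.1 hy with rfl | hy
        · exact hzc
        · exact hg2 y hy
      by_cases hne : u = []
      · subst hne
        refine ⟨(some ⟨z.1, hz⟩, z.2) :: g, ?_, hg7, hg6, by simp, ?_⟩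
        · simp [hg1]
        · intro b hb y hy
          simp only [List.head?_cons, List.map_nil, List.nil_append, Option.mem_def,
            Option.some.injEq] at hb hy
          subst hb
          subst hy
          exact ⟨fun h => absurd h hz, fun _ => rfl⟩
      · have hc : ∀ z ∈ u, z.2 ∈ S z.1 ∧ τ z.2 = 0 := fun y hy =>
          hu (inc y) (List.mem_append_left _ (List.mem_map_of_mem hy))
        have hch' : u.IsChain (fun x y => x.1 ≠ y.1) := by
          have h := hch.left_of_append
          rw [List.isChain_map] at h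
          exact h.imp fun x y h h' => h (congrArg Subtype.val h')
        have hg := run_good hST hF u hne hc hch'
        refine ⟨(none, (u.map Prod.snd).prod) :: (some ⟨z.1, hz⟩, z.2) :: g, ?_, ?_, ?_,
          by simp, ?_⟩
        · rw [List.map_append, List.prod_append, inc_snd]
          simp [hg1]
        · intro y hy
          rcases List.mem_cons.1 hy with rfl | hy
          · exact hg
          · exact hg7 y hy
        · rw [List.isChain_cons]
          refine ⟨fun b hb => ?_, hg6⟩
          simp only [List.head?_cons, Option.mem_def, Option.some.injEq] at hb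
          subst hb
          simp
        · intro b hb y hy
          obtain ⟨x, u', rfl⟩ := List.exists_cons_of_ne_nil hne
          simp only [List.head?_cons, List.map_cons, List.cons_append, Option.mem_def,
            Option.some.injEq] at hb hy
          subst hb
          subst hy
          exact ⟨fun _ => rfl, fun h => absurd x.1.2 h⟩

theorem t_UNG2 : S_UNG2 := by
  intro A _ τ _ K S P T hST hF hF2 w hne hc hch
  obtain ⟨g, hg1, hg2, hg3, hg4, _⟩ := group hST hF w [] hc hch
  rw [List.map_nil, List.nil_append] at hg1 hg4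
  rw [← hg1]
  exact hF2 g (fun h => hne (hg4.1 h)) hg2 hg3

end Pool.Agent.H923R2.FZ.T_UNG2
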