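import Mathlib

/-!
Good subsets of groups: the block lemma.
-/

set_option autoImplicit false

namespace Pool.Agent.H674R2.SG

open Cardinal Set

universe u

section Seq

variable {G : Type u} [Group G] {W : Type u} [LinearOrder W] [WellFoundedLT W]

/-- the type of `x` over `N`. -/
def tp (x : G) (N : Set G) : Set (G × G) :=
  {p | p.1 ∈ N ∧ p.2 ∈ N ∧ x * p.1⁻¹ * x = p.2}

open Classical in
/-- a choice of an element of `A \ N` of type `t` over `N`. -/
noncomputable def pick (A N : Set G) (t : Set (G × G)) : G :=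
  if h : ∃ x, x ∈ A ∧ x ∉ N ∧ tp x N = t then h.choose else 1

theorem pick_spec (A N : Set G) (t : Set (G × G))
    (h : ∃ x, x ∈ A ∧ x ∉ N ∧ tp x N = t) :
    pick A N t ∈ A ∧ pick A N t ∉ N ∧ tp (pick A N t) N = t := by
  unfold pick
  rw [dif_pos h]
  exact h.choose_spec

/-- one step of the recursion -/
noncomputable def step (A M : Set G) (b : G) (w : W) (f : ∀ v, v < w → G) : G :=
  pick A (Subgroup.closure (M ∪ {y | ∃ v, ∃ h : v < w, y = f v h}) : Set G)
    (tp b (Subgroup.closure (M ∪ {y | ∃ v, ∃ h : v < w, y = f v h}) : Set G))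

/-- the sequence attached to `b` -/
noncomputable def sq (A M : Set G) (b : G) : W → G :=
  (wellFounded_lt : WellFounded ((· < ·) : W → W → Prop)).fix (step A M b)

/-- the subgroup before `w` -/
def Nw (A M : Set G) (b : G) (w : W) : Set G :=
  (Subgroup.closure (M ∪ (sq A M b) '' Iio w) : Set G)

theorem sq_eq (A M : Set G) (b : G) (w : W) :
    sq A M b w = pick A (Nw A M b w) (tp b (Nw A M b w)) := by
  have h : (M ∪ {y | ∃ v, ∃ _ : v < w, y = sq A M b v}) = (M ∪ (sq A M b) '' Iio w) := by
    congr 1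
    ext y
    constructor
    · rintro ⟨v, hv, rfl⟩
      exact ⟨v, hv, rfl⟩
    · rintro ⟨v, hv, rfl⟩
      exact ⟨v, hv, rfl⟩
  unfold Nw
  rw [← h]
  conv_lhs => unfold sq
  rw [WellFounded.fix_eq]
  rfl

open Classical in
/-- an encoding of the elements of `N` -/
noncomputable def enc (L : Type u) [Nonempty L] (N : Set G) : G → L :=
  if h : ∃ f : G → L, InjOn f N then h.choose else fun _ => Classical.arbitrary L

theorem enc_inj {L : Type u} [Nonempty L] (N : Set G) (h : #N ≤ #L) : InjOn (enc L N) N := by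
  have h1 : ∃ f : G → L, InjOn f N := by
    obtain ⟨e⟩ := h
    classical
    refine ⟨fun x => if hx : x ∈ N then e ⟨x, hx⟩ else Classical.arbitrary L, ?_⟩
    intro x hx y hy hxy
    simp only [hx, hy, dif_pos] at hxy
    have := e.injective hxy
    exact congrArg Subtype.val this
  unfold enc
  rw [dif_pos h1]
  exact h1.choose_spec

/-- code of a type over `N` -/
noncomputable def code (L : Type u) [Nonempty L] (N : Set G) (t : Set (G × G)) : Set (L × L) :=
  (fun p : G × G => (enc L N p.1, enc L N p.2)) '' t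

theorem code_inj {L : Type u} [Nonempty L] (N : Set G) (h : #N ≤ #L) (b b' : G)
    (hc : code L N (tp b N) = code L N (tp b' N)) : tp b N = tp b' N := by
  have he := enc_inj (L := L) N h
  have key : ∀ c c' : G, code L N (tp c N) = code L N (tp c' N) → tp c N ⊆ tp c' N := by
    intro c c' hcc p hp
    have h1 : (enc L N p.1, enc L N p.2) ∈ code L N (tp c N) := ⟨p, hp, rfl⟩
    rw [hcc] at h1
    obtain ⟨q, hq, hqp⟩ := h1
    have h2 : enc L N q.1 = enc L N p.1 := congrArg Prod.fst hqp
    have h3 : enc L N q.2 = enc L N p.2 := congrArg Prod.snd hqp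
    have h4 := he hq.1 hp.1 h2
    have h5 := he hq.2.1 hp.2.1 h3
    have : q = p := Prod.ext h4 h5
    rw [← this]
    exact hq
  exact Subset.antisymm (key _ _ hc) (key _ _ hc.symm)

theorem mk_closure_le (S : Set G) : #(Subgroup.closure S : Set G) ≤ max #S ℵ₀ := by
  have h1 : (Subgroup.closure S : Set G) = Set.range (FreeGroup.lift ((↑) : S → G)) := by
    rw [FreeGroup.closure_eq_range]
    rfl
  rw [h1]
  refine Cardinal.mk_range_le.trans ?_
  rcases isEmpty_or_nonempty S with hS | hS
  · refine le_trans ?_ (le_max_right _ _)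
    exact Cardinal.mk_le_aleph0
  · rw [Cardinal.mk_freeGroup]

theorem mk_Nw_le (A M : Set G) (b : G) (w : W) {L : Type u} (h0 : ℵ₀ ≤ #L) (hM : #M ≤ #L)
    (hI : #(Iio w) ≤ #L) : #(Nw A M b w) ≤ #L := by
  refine (mk_closure_le _).trans ?_
  refine max_le ?_ h0
  refine (Cardinal.mk_union_le _ _).trans ?_
  refine (add_le_add hM (Cardinal.mk_image_le.trans hI)).trans ?_
  rw [Cardinal.add_eq_self h0]

/-- the code sequence of `b` -/
noncomputable def cs (W : Type u) [LinearOrder W] [WellFoundedLT W] (L : Type u) [Nonempty L]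
    (A M : Set G) (b : G) (w : W) : Set (L × L) :=
  code L (Nw A M b w) (tp b (Nw A M b w))

theorem cs_det {L : Type u} [Nonempty L] (A M : Set G) (h0 : ℵ₀ ≤ #L) (hM : #M ≤ #L)
    (hI : ∀ w : W, #(Iio w) ≤ #L) (b b' : G) (w0 : W)
    (h : ∀ v < w0, cs W L A M b v = cs W L A M b' v) :
    ∀ w : W, w < w0 → sq A M b w = sq A M b' w := by
  intro w
  induction w using WellFoundedLT.induction with
  | _ w ih =>
    intro hw
    have hN : Nw A M b w = Nw A M b' w := by
      unfold Nw
      have : (sq A M b) '' Iio w = (sq A M b') '' Iio w := by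
        apply Set.image_congr
        intro v hv
        exact ih v hv (lt_trans hv hw)
      rw [this]
    have hc : cs W L A M b w = cs W L A M b' w := h w hw
    unfold cs at hc
    rw [← hN] at hc
    have := code_inj (L := L) _ (mk_Nw_le A M b w h0 hM (hI w)) b b' hc
    rw [sq_eq, sq_eq, ← hN, this]

theorem exists_b (L : Type u) [Nonempty L] (A M : Set G) (h0 : ℵ₀ ≤ #L) (hM : #M ≤ #L)
    (hI : ∀ w : W, #(Iio w) ≤ #L) (hW : #W ≤ 2 ^ #L)
    (hA : 2 ^ #L < #A) : ∃ b ∈ A, ∀ w : W, b ∉ Nw A M b w := by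
  by_contra hcon
  push Not at hcon
  have hcon' : ∀ b : A, ∃ w : W, (b : G) ∈ Nw A M (b : G) w := fun b => hcon b b.2
  choose wb hwb using hcon'
  have hinj : Function.Injective
      (fun b : A => (⟨wb b, (fun v => cs W L A M (b : G) v.1, enc L (Nw A M (b : G) (wb b)) (b : G))⟩ :
        Σ w : W, (Iio w → Set (L × L)) × L)) := by
    intro b b' hbb
    simp only [Sigma.mk.injEq] at hbb
    obtain ⟨hw, hbb⟩ := hbb
    have hb := hwb b
    have hb' := hwb b'
    revert hbb hb hb'
    generalize wb b = w at hw ⊢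
    generalize wb b' = w' at hw ⊢
    subst hw
    intro hbb hb hb'
    have hbb := eq_of_heq hbb
    have h1 : ∀ v < w, cs W L A M (b : G) v = cs W L A M (b' : G) v := fun v hv =>
      congrFun (congrArg Prod.fst hbb) ⟨v, hv⟩
    have h2 : enc L (Nw A M (b : G) w) (b : G) = enc L (Nw A M (b' : G) w) (b' : G) :=
      congrArg Prod.snd hbb
    have h3 := cs_det A M h0 hM hI (b : G) (b' : G) w h1
    have h4 : Nw A M (b : G) w = Nw A M (b' : G) w := by
      unfold Nw
      have : (sq A M (b : G)) '' Iio w = (sq A M (b' : G)) '' Iio w := by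
        apply Set.image_congr
        intro v hv
        exact h3 v hv
      rw [this]
    rw [← h4] at h2
    have h5 := enc_inj (L := L) _ (mk_Nw_le A M (b : G) w h0 hM (hI w))
    rw [← h4] at hb'
    exact Subtype.ext (h5 hb hb' h2)
  have h1 := Cardinal.mk_le_of_injective hinj
  rw [Cardinal.mk_sigma] at h1
  have h3 : ∀ w : W, #((Iio w → Set (L × L)) × L) ≤ 2 ^ #L := by
    intro w
    rw [Cardinal.mk_prod, Cardinal.lift_id, Cardinal.lift_id, Cardinal.mk_pi]
    simp only [Cardinal.prod_const, Cardinal.lift_id, Cardinal.mk_set, Cardinal.mk_prod]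
    rw [Cardinal.mul_eq_self h0, ← Cardinal.power_mul]
    have h4 : #L * #(Iio w) ≤ #L := by
      calc #L * #(Iio w) ≤ #L * #L := by
            gcongr
            exact hI w
        _ = #L := Cardinal.mul_eq_self h0
    calc (2 : Cardinal.{u}) ^ (#L * #(Iio w)) * #L ≤ 2 ^ #L * 2 ^ #L :=
          mul_le_mul' (Cardinal.power_le_power_left two_ne_zero h4) (Cardinal.cantor _).le
      _ = 2 ^ #L := Cardinal.mul_eq_self (h0.trans (Cardinal.cantor _).le)
  have h2 : Cardinal.sum (fun w : W => #((Iio w → Set (L × L)) × L)) ≤ 2 ^ #L := by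
    refine (Cardinal.sum_le_sum _ _ h3).trans ?_
    rw [Cardinal.sum_const, Cardinal.lift_id, Cardinal.lift_id]
    calc #W * 2 ^ #L ≤ 2 ^ #L * 2 ^ #L := by gcongr
      _ = 2 ^ #L := Cardinal.mul_eq_self (h0.trans (Cardinal.cantor _).le)
  exact absurd (h1.trans h2) (not_le.mpr hA)

/-- **Block lemma.** -/
theorem block0 (L : Type u) [Nonempty L] (A M : Set G) (h0 : ℵ₀ ≤ #L) (hM : #M ≤ #L)
    (hI : ∀ w : W, #(Iio w) ≤ #L) (hW : #W ≤ 2 ^ #L)
    (hA : 2 ^ #L < #A) : ∃ b : G, ∃ X : Set G, X ⊆ A ∧ #X = #W ∧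
      (∀ x ∈ X, x ∉ M) ∧
      ∀ x y z : G, x ∈ M ∪ X → y ∈ M ∪ X → z ∈ M ∪ X → z = y * x⁻¹ * y → x ≠ z →
        (x ∈ M ∧ y ∈ M ∧ z ∈ M) ∨ z = b * x⁻¹ * b := by
  obtain ⟨b, hbA, hb⟩ := exists_b (W := W) L A M h0 hM hI hW hA
  have hx : ∀ w : W, sq A M b w ∈ A ∧ sq A M b w ∉ Nw A M b w ∧
      tp (sq A M b w) (Nw A M b w) = tp b (Nw A M b w) := by
    intro w
    rw [sq_eq]
    apply pick_spec
    exact ⟨b, hbA, hb w, rfl⟩
  have hMN : ∀ w : W, M ⊆ Nw A M b w := fun w =>
    Set.subset_union_left.trans Subgroup.subset_closure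
  have hSN : ∀ v w : W, v < w → sq A M b v ∈ Nw A M b w := fun v w hvw =>
    Subgroup.subset_closure (Or.inr ⟨v, hvw, rfl⟩)
  have hinj : Function.Injective (sq (W := W) A M b) := by
    intro v w hvw
    rcases lt_trichotomy v w with h | h | h
    · exact absurd (hvw ▸ hSN v w h) (hx w).2.1
    · exact h
    · exact absurd (hvw ▸ hSN w v h) (hx v).2.1
  refine ⟨b, range (sq (W := W) A M b), ?_, Cardinal.mk_range_eq _ hinj, ?_, ?_⟩
  · rintro x ⟨w, rfl⟩
    exact (hx w).1
  · rintro x ⟨w, rfl⟩ hxM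
    exact (hx w).2.1 (hMN w hxM)
  -- rank function
  classical
  let r : G → WithBot W := fun p =>
    if p ∈ M then ⊥ else if h : ∃ w : W, sq A M b w = p then ((h.choose : W) : WithBot W) else ⊥
  have hr : ∀ (w : W) (p : G), p ∈ M ∪ range (sq (W := W) A M b) → r p ≤ (w : WithBot W) →
      p ∈ Nw A M b w ∨ p = sq A M b w := by
    intro w p hp hrp
    by_cases hpM : p ∈ M
    · exact Or.inl (hMN w hpM)
    · have hex : ∃ w : W, sq A M b w = p := by
        rcases hp with hp | hp
        · exact absurd hp hpM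
        · exact hp
      have hrv : r p = ((hex.choose : W) : WithBot W) := by
        simp only [r, if_neg hpM, dif_pos hex]
      rw [hrv, WithBot.coe_le_coe] at hrp
      have hs := hex.choose_spec
      rcases lt_or_eq_of_le hrp with h | h
      · left
        rw [← hs]
        exact hSN _ _ h
      · right
        rw [← hs, h]
  have hr2 : ∀ (w : W) (p : G), r p = (w : WithBot W) → p = sq A M b w := by
    intro w p hp
    by_cases hpM : p ∈ M
    · simp only [r, if_pos hpM] at hp
      exact absurd hp.symm (WithBot.coe_ne_bot)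
    · by_cases hex : ∃ w : W, sq A M b w = p
      · have hrv : r p = ((hex.choose : W) : WithBot W) := by
          simp only [r, if_neg hpM, dif_pos hex]
        rw [hrv, WithBot.coe_inj] at hp
        rw [← hex.choose_spec, hp]
      · simp only [r, if_neg hpM, dif_neg hex] at hp
        exact absurd hp.symm (WithBot.coe_ne_bot)
  have hr3 : ∀ p : G, p ∈ M ∪ range (sq (W := W) A M b) → r p = ⊥ → p ∈ M := by
    intro p hp hrp
    by_contra hpM
    have hex : ∃ w : W, sq A M b w = p := by
      rcases hp with hp | hp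
      · exact absurd hp hpM
      · exact hp
    have hrv : r p = ((hex.choose : W) : WithBot W) := by
      simp only [r, if_neg hpM, dif_pos hex]
    rw [hrv] at hrp
    exact WithBot.coe_ne_bot hrp
  intro x y z hxm hym hzm hz hxz
  -- the maximum rank
  obtain ⟨m, hm⟩ : ∃ m : WithBot W, m = max (r x) (max (r y) (r z)) := ⟨_, rfl⟩
  have hxm' : r x ≤ m := by rw [hm]; exact le_max_left _ _
  have hym' : r y ≤ m := by rw [hm]; exact (le_max_left _ _).trans (le_max_right _ _)
  have hzm' : r z ≤ m := by rw [hm]; exact (le_max_right _ _).trans (le_max_right _ _)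
  have hmm : r x = m ∨ r y = m ∨ r z = m := by
    rw [hm]
    rcases max_choice (r x) (max (r y) (r z)) with h | h
    · exact Or.inl h.symm
    · rcases max_choice (r y) (r z) with h' | h'
      · right; left; rw [h, h']
      · right; right; rw [h, h']
  induction m using WithBot.recBotCoe with
  | bot =>
    left
    exact ⟨hr3 x hxm (le_bot_iff.mp hxm'), hr3 y hym (le_bot_iff.mp hym'),
      hr3 z hzm (le_bot_iff.mp hzm')⟩
  | coe w =>
    right
    have hw := (hx w).2.1
    have htw := (hx w).2.2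
    -- closure facts
    have hcl : ∀ p q : G, p ∈ Nw A M b w → q ∈ Nw A M b w → q * p⁻¹ * q ∈ Nw A M b w := by
      intro p q hp hq
      exact Subgroup.mul_mem _ (Subgroup.mul_mem _ hq (Subgroup.inv_mem _ hp)) hq
    have hx' : x = y * z⁻¹ * y := by rw [hz]; group
    rcases hr w x hxm hxm' with hx1 | hx1
    · rcases hr w z hzm hzm' with hz1 | hz1
      · rcases hr w y hym hym' with hy1 | hy1
        · -- all three in Nw, contradiction
          exfalso
          rcases hmm with h | h | h
          · exact hw ((hr2 w x h) ▸ hx1)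
          · exact hw ((hr2 w y h) ▸ hy1)
          · exact hw ((hr2 w z h) ▸ hz1)
        · -- the main case
          have h1 : (x, z) ∈ tp (sq A M b w) (Nw A M b w) := by
            refine ⟨hx1, hz1, ?_⟩
            rw [← hy1]
            exact hz.symm
          rw [htw] at h1
          exact h1.2.2.symm
      · rcases hr w y hym hym' with hy1 | hy1
        · exfalso
          exact hw (hz1 ▸ hz ▸ hcl x y hx1 hy1)
        · exfalso
          apply hxz
          have hzy : z = y := by rw [hz1, hy1]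
          rw [hx', hzy]
          group
    · rcases hr w y hym hym' with hy1 | hy1
      · rcases hr w z hzm hzm' with hz1 | hz1
        · exfalso
          apply hw
          rw [← hx1, hx']
          exact hcl z y hz1 hy1
        · exfalso
          exact hxz (by rw [hx1, hz1])
      · exfalso
        apply hxz
        have hxy : x = y := by rw [hx1, hy1]
        rw [hz, hxy]
        group

end Seq

/-- **Block lemma**, cardinal form. -/
theorem block {G : Type u} [Group G] (A M : Set G) (lam : Cardinal.{u}) (h0 : ℵ₀ ≤ lam)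
    (hM : #M ≤ lam) (hA : 2 ^ lam < #A) : ∃ b : G, ∃ X : Set G, X ⊆ A ∧ #X = lam ∧
      (∀ x ∈ X, x ∉ M) ∧
      ∀ x y z : G, x ∈ M ∪ X → y ∈ M ∪ X → z ∈ M ∪ X → z = y * x⁻¹ * y → x ≠ z →
        (x ∈ M ∧ y ∈ M ∧ z ∈ M) ∨ z = b * x⁻¹ * b := by
  have hW : #(lam.ord.ToType) = lam := by simp
  have hne : Nonempty lam.ord.ToType := by
    rw [← Cardinal.mk_ne_zero_iff, hW]
    exact (lt_of_lt_of_le Cardinal.aleph0_pos h0).ne'
  have := block0 (W := lam.ord.ToType) lam.ord.ToType A M (by rw [hW]; exact h0)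
    (by rw [hW]; exact hM) (fun w => Cardinal.mk_set_le _) (Cardinal.cantor _).le
    (by rw [hW]; exact hA)
  rw [hW] at this
  exact this

/-- **Block lemma**, successor form. -/
theorem block_succ {G : Type u} [Group G] (A : Set G) (lam : Cardinal.{u}) (h0 : ℵ₀ ≤ lam)
    (hA : 2 ^ lam < #A) : ∃ b : G, ∃ X : Set G, X ⊆ A ∧ #X = Order.succ lam ∧
      ∀ x ∈ X, ∀ y ∈ X, ∀ z ∈ X, z = y * x⁻¹ * y → x ≠ z → z = b * x⁻¹ * b := by
  have hL : #(lam.ord.ToType) = lam := by simp
  have hW : #((Order.succ lam).ord.ToType) = Order.succ lam := by simp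
  have hne : Nonempty lam.ord.ToType := by
    rw [← Cardinal.mk_ne_zero_iff, hL]
    exact (lt_of_lt_of_le Cardinal.aleph0_pos h0).ne'
  obtain ⟨b, X, h1, h2, h3, h4⟩ := block0 (W := (Order.succ lam).ord.ToType) lam.ord.ToType A ∅
    (by rw [hL]; exact h0) (by simp)
    (fun w => by
      rw [hL]
      exact Order.lt_succ_iff.mp (Cardinal.mk_Iio_toType_ord_lt w))
    (by
      rw [hL, hW]
      exact Order.succ_le_of_lt (Cardinal.cantor _))
    (by rw [hL]; exact hA)
  refine ⟨b, X, h1, by rw [h2, hW], ?_⟩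
  intro x hx y hy z hz hzz hxz
  rcases h4 x y z (Or.inr hx) (Or.inr hy) (Or.inr hz) hzz hxz with h | h
  · exact absurd h.1 (Set.notMem_empty _)
  · exact h

end Pool.Agent.H674R2.SG
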