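import Pool.Agent.H674R2.SG1

/-!
Good subsets of groups: assembly for singular strong limit cardinals.
-/

set_option autoImplicit false

namespace Pool.Agent.H674R2.SG

open Cardinal Set

universe u

section Rec

variable {G : Type u} [Group G] {I : Type u} [LinearOrder I] [WellFoundedLT I]

/-- the block property -/
def BP (A M : Set G) (lam : Cardinal.{u}) (p : Set G × G) : Prop :=
  p.1 ⊆ A ∧ #p.1 = lam ∧ (∀ x ∈ p.1, x ∉ M) ∧
      ∀ x y z : G, x ∈ M ∪ p.1 → y ∈ M ∪ p.1 → z ∈ M ∪ p.1 → z = y * x⁻¹ * y → x ≠ z →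
        (x ∈ M ∧ y ∈ M ∧ z ∈ M) ∨ z = p.2 * x⁻¹ * p.2

open Classical in
/-- choose a block over `M` -/
noncomputable def cb (A M : Set G) (lam : Cardinal.{u}) : Set G × G :=
  if h : ∃ p : Set G × G, BP A M lam p then h.choose else (∅, 1)

theorem cb_spec (A M : Set G) (lam : Cardinal.{u}) (h0 : ℵ₀ ≤ lam)
    (hM : #M ≤ lam) (hA : 2 ^ lam < #A) : BP A M lam (cb A M lam) := by
  have h : ∃ p : Set G × G, BP A M lam p := by
    obtain ⟨b, X, h1, h2, h3, h4⟩ := block A M lam h0 hM hA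
    exact ⟨(X, b), h1, h2, h3, h4⟩
  unfold cb
  rw [dif_pos h]
  exact h.choose_spec

/-- recursion step for the blocks -/
noncomputable def bstep (A : Set G) (k : I → Cardinal.{u}) (i : I)
    (f : ∀ j, j < i → Set G × G) : Set G × G :=
  cb A {y | ∃ j, ∃ h : j < i, y ∈ (f j h).1}
    (max (max ℵ₀ (k i)) #{y : G | ∃ j, ∃ h : j < i, y ∈ (f j h).1})

/-- the blocks -/
noncomputable def blk (A : Set G) (k : I → Cardinal.{u}) : I → Set G × G :=
  (wellFounded_lt : WellFounded ((· < ·) : I → I → Prop)).fix (bstep A k)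

/-- the union of the earlier blocks -/
def Mi (A : Set G) (k : I → Cardinal.{u}) (i : I) : Set G :=
  {y | ∃ j, ∃ _ : j < i, y ∈ (blk A k j).1}

theorem blk_eq (A : Set G) (k : I → Cardinal.{u}) (i : I) :
    blk A k i = cb A (Mi A k i) (max (max ℵ₀ (k i)) #(Mi A k i)) := by
  conv_lhs => unfold blk
  rw [WellFounded.fix_eq]
  rfl

theorem Mi_eq (A : Set G) (k : I → Cardinal.{u}) (i : I) :
    Mi A k i = ⋃ j ∈ Iio i, (blk A k j).1 := by
  ext y
  simp [Mi]

end Rec

/-- the involution `x ↦ b x⁻¹ b`. -/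
def phi {G : Type u} [Group G] (b : G) : Equiv.Perm G where
  toFun x := b * x⁻¹ * b
  invFun x := b * x⁻¹ * b
  left_inv x := by group
  right_inv x := by group

/-- A set of group elements contains a subset of the same cardinality meeting every orbit of the
involutions `x ↦ b_i x⁻¹ b_i` in at most one point. -/
theorem transversal {G : Type u} [Group G] (X : Set G) {I : Type u} (b : I → G)
    (h0 : ℵ₀ < #X) (hI : #I < #X) :
    ∃ H : Set G, H ⊆ X ∧ #H = #X ∧ ∀ x ∈ H, ∀ z ∈ H, ∀ i, z = b i * x⁻¹ * b i → x = z := by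
  classical
  let P : Subgroup (Equiv.Perm G) := Subgroup.closure (range fun i : I => phi (b i))
  have hP : #P < #X := by
    refine (mk_closure_le _).trans_lt ?_
    exact max_lt (Cardinal.mk_range_le.trans_lt hI) h0
  let q : G → Quotient (MulAction.orbitRel P G) := fun x => Quotient.mk _ x
  let Y : Set (Quotient (MulAction.orbitRel P G)) := q '' X
  let rep : Y → G := fun y => y.2.choose
  have hrep : ∀ y : Y, rep y ∈ X ∧ q (rep y) = y := fun y => y.2.choose_spec
  have hrepinj : Function.Injective rep := by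
    intro y y' h
    apply Subtype.ext
    rw [← (hrep y).2, ← (hrep y').2, h]
  have hcover : X ⊆ range (fun p : Y × P => p.2 • rep p.1) := by
    intro x hx
    have hq : q (rep ⟨q x, ⟨x, hx, rfl⟩⟩) = q x := (hrep ⟨q x, ⟨x, hx, rfl⟩⟩).2
    have h1 : (MulAction.orbitRel P G).r x (rep ⟨q x, ⟨x, hx, rfl⟩⟩) :=
      Quotient.exact hq.symm
    obtain ⟨g, hg⟩ := h1
    exact ⟨(⟨q x, ⟨x, hx, rfl⟩⟩, g), hg⟩
  have hYcard : #X ≤ #Y := by
    by_contra hlt
    push Not at hlt
    have h1 : #X ≤ #Y * #P := by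
      refine (Cardinal.mk_le_mk_of_subset hcover).trans (Cardinal.mk_range_le.trans ?_)
      rw [Cardinal.mk_prod, Cardinal.lift_id, Cardinal.lift_id]
    exact absurd h1 (not_le.mpr (Cardinal.mul_lt_of_lt h0.le hlt hP))
  refine ⟨range rep, ?_, ?_, ?_⟩
  · rintro x ⟨y, rfl⟩
    exact (hrep y).1
  · apply le_antisymm
    · apply Cardinal.mk_le_mk_of_subset
      rintro x ⟨y, rfl⟩
      exact (hrep y).1
    · rw [Cardinal.mk_range_eq _ hrepinj]
      exact hYcard
  · rintro x ⟨a, rfl⟩ z ⟨c, rfl⟩ i hi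
    have h1 : q (rep c) = q (rep a) := by
      apply Quotient.sound
      refine ⟨⟨phi (b i), Subgroup.subset_closure ⟨i, rfl⟩⟩, ?_⟩
      exact hi.symm
    have h2 : a = c := by
      apply Subtype.ext
      rw [← (hrep a).2, ← (hrep c).2, h1]
    rw [h2]

/-- Every subset of cardinality `> 2 ^ lam` of a group has a good subset of cardinality
`succ lam`. -/
theorem exists_good_succ {G : Type u} [Group G] (A : Set G) (lam : Cardinal.{u}) (h0 : ℵ₀ ≤ lam)
    (hA : 2 ^ lam < #A) : ∃ H : Set G, H ⊆ A ∧ #H = Order.succ lam ∧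
      ∀ x ∈ H, ∀ y ∈ H, ∀ z ∈ H, z = y * x⁻¹ * y → x = z := by
  obtain ⟨b, X, h1, h2, h3⟩ := block_succ A lam h0 hA
  have h4 : ℵ₀ < #X := by
    rw [h2]
    exact h0.trans_lt (Order.lt_succ lam)
  obtain ⟨H, hH1, hH2, hH3⟩ := transversal X (fun _ : PUnit.{u+1} => b) h4
    (by rw [Cardinal.mk_punit]; exact Cardinal.one_lt_aleph0.trans h4)
  refine ⟨H, hH1.trans h1, hH2.trans h2, ?_⟩
  intro x hx y hy z hz hzz
  by_contra hne
  exact hne (hH3 x hx z hz PUnit.unit (h3 x (hH1 hx) y (hH1 hy) z (hH1 hz) hzz hne))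

/-- **Theorem.**  If `κ` is a singular strong limit cardinal, then every subset of cardinality
`κ` of a group contains a good subset of cardinality `κ`. -/
theorem exists_good {κ : Cardinal.{u}} (hκ : κ.IsStrongLimit) (hs : κ.ord.cof < κ)
    (G : Type u) [Group G] (A : Set G) (hA : #A = κ) :
    ∃ H : Set G, H ⊆ A ∧ #H = κ ∧ ∀ x ∈ H, ∀ y ∈ H, ∀ z ∈ H, z = y * x⁻¹ * y → x = z := by
  classical
  have h0 : ℵ₀ ≤ κ := hκ.aleph0_le
  obtain ⟨s, hsc, hst⟩ := Ordinal.exists_ord_cof_eq κ.ord.ToType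
  rw [Ordinal.cof_toType] at hst
  -- index type
  let I : Type u := s
  have hI : #I = κ.ord.cof := by
    have := congrArg Ordinal.card hst
    rw [Ordinal.card_type, Cardinal.card_ord] at this
    exact this
  have hIio : ∀ i : I, #(Iio i) < κ.ord.cof := by
    intro i
    have h1 : (Cardinal.ord #I) = Ordinal.type ((· < ·) : I → I → Prop) := by
      rw [hI]
      exact hst.symm
    have h2 := Cardinal.mk_Iio_lt i h1
    rwa [hI] at h2
  let k : I → Cardinal.{u} := fun i => #(Iio (i : κ.ord.ToType))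
  have hk : ∀ i, k i < κ := by
    intro i
    exact Cardinal.mk_Iio_toType_ord_lt _
  have hkc : ∀ lam < κ, ∃ i : I, lam ≤ k i := by
    intro lam hlam
    have h1 : lam.ord < κ.ord := Cardinal.ord_lt_ord.mpr hlam
    obtain ⟨i, hi, hi2⟩ := hsc (Ordinal.ToType.mk ⟨lam.ord, h1⟩)
    refine ⟨⟨i, hi⟩, ?_⟩
    have h3 : #(Iio (Ordinal.ToType.mk ⟨lam.ord, h1⟩ : κ.ord.ToType)) = lam := by
      have h4 : Ordinal.typein ((· < ·) : κ.ord.ToType → κ.ord.ToType → Prop)
          (Ordinal.ToType.mk ⟨lam.ord, h1⟩) = lam.ord := by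
        have := Ordinal.ToType.mk.symm_apply_apply (⟨lam.ord, h1⟩ : Iio κ.ord)
        exact congrArg Subtype.val this
      have h5 := congrArg Ordinal.card h4
      rw [Cardinal.card_ord] at h5
      exact Eq.trans rfl h5
    change lam ≤ #(Iio i)
    rw [← h3]
    exact Cardinal.mk_le_mk_of_subset (Iio_subset_Iio hi2)
  have hmain : ∀ i : I, #(Mi A k i) < κ ∧
      BP A (Mi A k i) (max (max ℵ₀ (k i)) #(Mi A k i)) (blk A k i) ∧
      #(blk A k i).1 < κ := by
    intro i
    have h0' : ℵ₀ < κ := by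
      have : ℵ₀ ≤ κ.ord.cof := by
        rw [Ordinal.aleph0_le_cof]
        exact Cardinal.isSuccLimit_ord h0
      exact this.trans_lt hs
    induction i using WellFoundedLT.induction with
    | _ i ih =>
      have h1 : #(Mi A k i) < κ := by
        rw [Mi_eq]
        refine (Cardinal.mk_biUnion_le _ _).trans_lt ?_
        refine Cardinal.mul_lt_of_lt h0 ((hIio i).trans hs) ?_
        apply Cardinal.iSup_lt_of_lt_cof_ord (hIio i)
        intro j
        exact (ih j.1 j.2).2.2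
      have h2 : max (max ℵ₀ (k i)) #(Mi A k i) < κ := max_lt (max_lt h0' (hk i)) h1
      have h3 := cb_spec A (Mi A k i) (max (max ℵ₀ (k i)) #(Mi A k i))
        ((le_max_left _ _).trans (le_max_left _ _)) (le_max_right _ _)
        (by rw [hA]; exact hκ.isStrongPrelimit h2)
      rw [← blk_eq] at h3
      refine ⟨h1, h3, ?_⟩
      rw [h3.2.1]
      exact h2
  -- the union
  let X : Set G := ⋃ i : I, (blk A k i).1
  have hXA : X ⊆ A := by
    intro x hx
    obtain ⟨i, hi⟩ := mem_iUnion.mp hx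
    exact (hmain i).2.1.1 hi
  have hXcard : κ ≤ #X := by
    by_contra hlt
    push Not at hlt
    have hlim : Order.succ #X < κ := hκ.isSuccLimit.succ_lt hlt
    obtain ⟨i, hi⟩ := hkc _ hlim
    have h1 : #(blk A k i).1 ≤ #X := Cardinal.mk_le_mk_of_subset
      (subset_iUnion (fun i : I => (blk A k i).1) i)
    rw [(hmain i).2.1.2.1] at h1
    have h2 : k i ≤ max (max ℵ₀ (k i)) #(Mi A k i) := (le_max_right _ _).trans (le_max_left _ _)
    exact absurd (Order.lt_succ #X) (not_lt.mpr (hi.trans (h2.trans h1)))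
  -- bad triples inside X
  have htri : ∀ x ∈ X, ∀ y ∈ X, ∀ z ∈ X, z = y * x⁻¹ * y → x ≠ z →
      ∃ i : I, z = (blk A k i).2 * x⁻¹ * (blk A k i).2 := by
    intro x hx y hy z hz hzz hxz
    have hup : ∀ p ∈ X, ∃ i : I, ∀ j, i ≤ j → p ∈ Mi A k j ∪ (blk A k j).1 := by
      intro p hp
      obtain ⟨i, hi⟩ := mem_iUnion.mp hp
      refine ⟨i, fun j hij => ?_⟩
      rcases lt_or_eq_of_le hij with h | h
      · exact Or.inl ⟨i, h, hi⟩
      · exact Or.inr (h ▸ hi)
    obtain ⟨ix, hix⟩ := hup x hx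
    obtain ⟨iy, hiy⟩ := hup y hy
    obtain ⟨iz, hiz⟩ := hup z hz
    have hex : ∃ i : I, x ∈ Mi A k i ∪ (blk A k i).1 ∧ y ∈ Mi A k i ∪ (blk A k i).1 ∧
        z ∈ Mi A k i ∪ (blk A k i).1 :=
      ⟨max ix (max iy iz), hix _ (le_max_left _ _),
        hiy _ ((le_max_left _ _).trans (le_max_right _ _)),
        hiz _ ((le_max_right _ _).trans (le_max_right _ _))⟩
    let i := WellFounded.min (wellFounded_lt (α := I))
      {i : I | x ∈ Mi A k i ∪ (blk A k i).1 ∧ y ∈ Mi A k i ∪ (blk A k i).1 ∧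
        z ∈ Mi A k i ∪ (blk A k i).1} hex
    have hi := WellFounded.min_mem (wellFounded_lt (α := I))
      {i : I | x ∈ Mi A k i ∪ (blk A k i).1 ∧ y ∈ Mi A k i ∪ (blk A k i).1 ∧
        z ∈ Mi A k i ∪ (blk A k i).1} hex
    have hmin : ∀ j : I, j < i → ¬ (x ∈ Mi A k j ∪ (blk A k j).1 ∧ y ∈ Mi A k j ∪ (blk A k j).1 ∧
        z ∈ Mi A k j ∪ (blk A k j).1) := by
      intro j hj hcon
      exact WellFounded.not_lt_min (wellFounded_lt (α := I)) 
        {i : I | x ∈ Mi A k i ∪ (blk A k i).1 ∧ y ∈ Mi A k i ∪ (blk A k i).1 ∧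
        z ∈ Mi A k i ∪ (blk A k i).1} hcon hj
    refine ⟨i, ?_⟩
    rcases (hmain i).2.1.2.2.2 x y z hi.1 hi.2.1 hi.2.2 hzz hxz with h | h
    · exfalso
      obtain ⟨⟨jx, hjx, hx1⟩, ⟨jy, hjy, hy1⟩, ⟨jz, hjz, hz1⟩⟩ := h
      have hup2 : ∀ (p : G) (j j' : I), p ∈ (blk A k j).1 → j ≤ j' →
          p ∈ Mi A k j' ∪ (blk A k j').1 := by
        intro p j j' hp hjj
        rcases lt_or_eq_of_le hjj with h | h
        · exact Or.inl ⟨j, h, hp⟩
        · exact Or.inr (h ▸ hp)
      apply hmin (max jx (max jy jz)) (max_lt hjx (max_lt hjy hjz))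
      exact ⟨hup2 _ _ _ hx1 (le_max_left _ _),
        hup2 _ _ _ hy1 ((le_max_left _ _).trans (le_max_right _ _)),
        hup2 _ _ _ hz1 ((le_max_right _ _).trans (le_max_right _ _))⟩
    · exact h
  have h0' : ℵ₀ < κ := by
    have : ℵ₀ ≤ κ.ord.cof := by
      rw [Ordinal.aleph0_le_cof]
      exact Cardinal.isSuccLimit_ord h0
    exact this.trans_lt hs
  have hXeq : #X = κ := le_antisymm (by rw [← hA]; exact Cardinal.mk_le_mk_of_subset hXA) hXcard
  obtain ⟨H, hH1, hH2, hH3⟩ := transversal X (fun i : I => (blk A k i).2)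
    (by rw [hXeq]; exact h0') (by rw [hXeq, hI]; exact hs)
  refine ⟨H, hH1.trans hXA, hH2.trans hXeq, ?_⟩
  intro x hx y hy z hz hzz
  by_contra hne
  obtain ⟨i, hi⟩ := htri x (hH1 hx) y (hH1 hy) z (hH1 hz) hzz hne
  exact hne (hH3 x hx z hz i hi)

end Pool.Agent.H674R2.SG
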