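import Mathlib

/-!
A countable family of functions that is absolute for a countable family of closed relations and
omits the set defined by a universal formula.
-/

namespace H674.Beta

open Filter Topology Classical

/-- Baire space. -/
abbrev B := ℕ → ℕ

/-- First values of `y`. -/
def pref (y : B) (k : ℕ) : List ℕ := (List.range k).map y

@[simp] lemma length_pref (y : B) (k : ℕ) : (pref y k).length = k := by simp [pref]

/-- Code of a node of the tree number `n`. -/
def cd (n : ℕ) (l : List ℕ) : ℕ := Nat.pair n (Encodable.encode l)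

lemma length_le_cd (n : ℕ) (l : List ℕ) : l.length ≤ cd n l :=
  (Encodable.length_le_encode l).trans (Nat.right_le_pair _ _)

lemma cd_inj {n n' : ℕ} {l l' : List ℕ} (h : cd n l = cd n' l') : n = n' ∧ l = l' := by
  unfold cd at h
  have := Nat.pair_eq_pair.1 h
  exact ⟨this.1, Encodable.encode_injective this.2⟩

inductive Atom (ι : Type)
  | rel (e : ι) (i j k : ℕ)
  | bit (i n m : ℕ)

deriving instance Countable for Atom

section

variable {ι : Type} (R : ι → Set (B × B × B))

def Atom.holds : Atom ι → (ℕ → B) → Prop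
  | .rel e i j k, X => (X i, X j, X k) ∈ R e
  | .bit i n m, X => X i n = m

def Atom.bd : Atom ι → ℕ
  | .rel _ i j k => i + j + k + 1
  | .bit i _ _ => i + 1

lemma holds_closed (hR : ∀ e, IsClosed (R e)) (a : Atom ι) : IsClosed {X | a.holds R X} := by
  cases a with
  | rel e i j k =>
    exact (hR e).preimage (f := fun X : ℕ → B => (X i, X j, X k)) (by fun_prop)
  | bit i n m =>
    exact isClosed_eq (f := fun X : ℕ → B => X i n) (g := fun _ => m) (by fun_prop) (by fun_prop)

lemma holds_congr {a : Atom ι} {X X' : ℕ → B} (h : ∀ i < a.bd, X i = X' i)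
    (hX : a.holds R X) : a.holds R X' := by
  cases a with
  | rel e i j k =>
    simp only [Atom.holds, Atom.bd] at *
    rw [← h i (by omega), ← h j (by omega), ← h k (by omega)]; exact hX
  | bit i n m =>
    simp only [Atom.holds, Atom.bd] at *
    rw [← h i (by omega)]; exact hX

lemma mem_of_agree {C : Set (ℕ → B)} (hC : IsClosed C) (X : ℕ → B) (Xs : ℕ → ℕ → B)
    (h : ∀ᶠ k in atTop, Xs k ∈ C) (h2 : ∀ i n, ∀ᶠ k in atTop, Xs k i n = X i n) : X ∈ C := by
  refine hC.mem_of_tendsto (b := atTop) (f := Xs) ?_ h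
  refine tendsto_pi_nhds.2 fun i => tendsto_pi_nhds.2 fun n => ?_
  refine tendsto_const_nhds.congr' ?_
  filter_upwards [h2 i n] with k hk using hk.symm

variable [Encodable (List (Atom ι) × ℕ)]

/-- The universal tree family. -/
noncomputable def U : ℕ → ℕ
  | c =>
    if ∃ (l : List (Atom ι)) (i : ℕ) (σ : List ℕ), c = cd (Encodable.encode (l, i)) σ ∧
      ∃ X : ℕ → B, (∀ c' < σ.length, X 0 c' = if h : c' < c then U c' else 0) ∧
        (∀ a ∈ l, a.holds R X) ∧
        (∀ j n, ∀ h : Nat.pair j n < σ.length, X (j + 1) n = σ[Nat.pair j n]) ∧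
        X i (Encodable.encode (l, i)) = 1
    then 0 else 1
termination_by c => c

lemma U_zero_iff (l : List (Atom ι)) (i : ℕ) (σ : List ℕ) :
    U R (cd (Encodable.encode (l, i)) σ) = 0 ↔
      ∃ X : ℕ → B, (∀ c' < σ.length, X 0 c' = U R c') ∧
        (∀ a ∈ l, a.holds R X) ∧
        (∀ j n, ∀ h : Nat.pair j n < σ.length, X (j + 1) n = σ[Nat.pair j n]) ∧
        X i (Encodable.encode (l, i)) = 1 := by
  rw [U]
  constructor
  · intro h
    split_ifs at h with h1
    obtain ⟨l', i', σ', hc, X, hX1, hX2, hX3, hX4⟩ := h1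
    obtain ⟨h2, rfl⟩ := cd_inj hc
    have h3 := Encodable.encode_injective h2
    obtain ⟨rfl, rfl⟩ := Prod.mk.inj h3
    refine ⟨X, fun c' hc' => ?_, hX2, hX3, hX4⟩
    rw [hX1 c' hc', dif_pos (lt_of_lt_of_le hc' (length_le_cd _ _))]
  · rintro ⟨X, hX1, hX2, hX3, hX4⟩
    rw [if_pos]
    refine ⟨l, i, σ, rfl, X, fun c' hc' => ?_, hX2, hX3, hX4⟩
    rw [hX1 c' hc', dif_pos (lt_of_lt_of_le hc' (length_le_cd _ _))]

/-- Closed set of sequences attached to a condition. -/
def C (l : List (Atom ι)) : Set (ℕ → B) := {X | X 0 = U R ∧ ∀ a ∈ l, a.holds R X}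

lemma C_closed (hR : ∀ e, IsClosed (R e)) (l : List (Atom ι)) : IsClosed (C R l) := by
  have h1 : IsClosed {X : ℕ → B | X 0 = U R} :=
    isClosed_eq (by fun_prop) (by fun_prop)
  have h2 : IsClosed {X : ℕ → B | ∀ a ∈ l, a.holds R X} := by
    have : {X : ℕ → B | ∀ a ∈ l, a.holds R X} = ⋂ a ∈ l, {X | a.holds R X} := by
      ext X; simp
    rw [this]
    exact isClosed_biInter fun a _ => holds_closed R hR a
  exact h1.inter h2

/-- Universality. -/
lemma U_univ (hR : ∀ e, IsClosed (R e)) (l : List (Atom ι)) (i : ℕ) :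
    (∃ y : B, ∀ k, U R (cd (Encodable.encode (l, i)) (pref y k)) = 0) ↔
      ∃ X ∈ C R l, X i (Encodable.encode (l, i)) = 1 := by
  constructor
  · rintro ⟨y, hy⟩
    choose Xs h1 h2 h3 h4 using fun k => (U_zero_iff R l i (pref y k)).1 (hy k)
    set X : ℕ → B := fun j => match j with
      | 0 => U R
      | j + 1 => fun n => y (Nat.pair j n) with hX
    have hag : ∀ j n, ∀ᶠ k in atTop, Xs k j n = X j n := by
      intro j n
      cases j with
      | zero =>
        filter_upwards [eventually_gt_atTop n] with k hk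
        exact h1 k n (by simpa using hk)
      | succ j =>
        filter_upwards [eventually_gt_atTop (Nat.pair j n)] with k hk
        rw [h3 k j n (by simpa using hk)]
        simp [pref, hX]
    refine ⟨X, ⟨rfl, fun a ha => ?_⟩, ?_⟩
    · exact mem_of_agree (holds_closed R hR a) X Xs (Eventually.of_forall fun k => h2 k a ha) hag
    · obtain ⟨k, hk⟩ := (hag i (Encodable.encode (l, i))).exists
      rw [← hk]; exact h4 k
  · rintro ⟨X, ⟨hX0, hX1⟩, hX2⟩
    refine ⟨fun m => X (m.unpair.1 + 1) m.unpair.2, fun k => ?_⟩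
    rw [U_zero_iff]
    refine ⟨X, fun c' _ => by rw [hX0], hX1, fun j n h => ?_, hX2⟩
    simp [pref]

/-- The set that has to be omitted. -/
noncomputable def z : B := fun n => if ∃ y : B, ∀ k, U R (cd n (pref y k)) = 0 then 0 else 1

lemma task2 (hR : ∀ e, IsClosed (R e)) {l : List (Atom ι)} (hl : (C R l).Nonempty) (i : ℕ) :
    ∃ n m, m ≠ z R n ∧ (C R (.bit i n m :: l)).Nonempty := by
  have key : ∃ X ∈ C R l, ∃ n, X i n ≠ z R n := by
    by_contra hcon
    push Not at hcon
    obtain ⟨X, hX⟩ := hl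
    have h1 := U_univ R hR l i
    by_cases hz : ∃ y : B, ∀ k, U R (cd (Encodable.encode (l, i)) (pref y k)) = 0
    · obtain ⟨X', hX', h2⟩ := h1.1 hz
      have h3 := hcon X' hX' (Encodable.encode (l, i))
      rw [h2, z, if_pos hz] at h3
      omega
    · have h3 := hcon X hX (Encodable.encode (l, i))
      rw [z, if_neg hz] at h3
      exact hz (h1.2 ⟨X, hX, h3⟩)
  obtain ⟨X, hX, n, hn⟩ := key
  refine ⟨n, X i n, hn, X, hX.1, ?_⟩
  intro a ha
  rcases List.mem_cons.1 ha with rfl | ha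
  · rfl
  · exact hX.2 a ha

lemma task3 {l : List (Atom ι)} (hl : (C R l).Nonempty) (i n : ℕ) :
    ∃ m, (C R (.bit i n m :: l)).Nonempty := by
  obtain ⟨X, hX⟩ := hl
  refine ⟨X i n, X, hX.1, ?_⟩
  intro a ha
  rcases List.mem_cons.1 ha with rfl | ha
  · rfl
  · exact hX.2 a ha

omit [Encodable (List (Atom ι) × ℕ)] in
lemma exists_bd (l : List (Atom ι)) : ∃ k, ∀ a ∈ l, a.bd ≤ k := by
  induction l with
  | nil => exact ⟨0, by simp⟩
  | cons a l ih =>
    obtain ⟨k, hk⟩ := ih
    refine ⟨max k a.bd, ?_⟩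
    intro b hb
    rcases List.mem_cons.1 hb with rfl | hb
    · exact le_max_right _ _
    · exact (hk b hb).trans (le_max_left _ _)

lemma task1 {l : List (Atom ι)} (hl : (C R l).Nonempty) (e : ι) (i j : ℕ) :
    (∃ k, (C R (.rel e i j k :: l)).Nonempty) ∨ (∀ X ∈ C R l, ∀ y, (X i, X j, y) ∉ R e) := by
  by_contra hcon
  push Not at hcon
  obtain ⟨h1, X, hX, y, hy⟩ := hcon
  obtain ⟨k, hk⟩ := exists_bd l
  set k' := k + i + j + 1 with hk'
  refine Set.notMem_empty (Function.update X k' y) ((h1 k') ▸ ?_)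
  refine ⟨?_, ?_⟩
  · rw [Function.update_of_ne (by omega)]; exact hX.1
  · intro a ha
    rcases List.mem_cons.1 ha with rfl | ha
    · simp only [Atom.holds]
      rw [Function.update_of_ne (by omega), Function.update_of_ne (by omega),
        Function.update_self]
      exact hy
    · refine holds_congr R (fun i' hi' => ?_) (hX.2 a ha)
      rw [Function.update_of_ne]
      have := hk a ha
      omega

/-- Tasks. -/
inductive Task (ι : Type)
  | t1 (e : ι) (i j : ℕ)
  | t2 (i : ℕ)
  | t3 (i n : ℕ)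

deriving instance Countable for Task

def met : Task ι → List (Atom ι) → Prop
  | .t1 e i j, l => (∃ k, .rel e i j k ∈ l) ∨ (∀ X ∈ C R l, ∀ y, (X i, X j, y) ∉ R e)
  | .t2 i, l => ∃ n m, m ≠ z R n ∧ .bit i n m ∈ l
  | .t3 i n, l => ∃ m, .bit i n m ∈ l

lemma exists_met (hR : ∀ e, IsClosed (R e)) (t : Task ι) {l : List (Atom ι)}
    (hl : (C R l).Nonempty) : ∃ l', l <:+ l' ∧ (C R l').Nonempty ∧ met R t l' := by
  cases t with
  | t1 e i j =>
    rcases task1 R hl e i j with ⟨k, hk⟩ | h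
    · exact ⟨_, List.suffix_cons _ _, hk, Or.inl ⟨k, by simp⟩⟩
    · exact ⟨l, List.suffix_rfl, hl, Or.inr h⟩
  | t2 i =>
    obtain ⟨n, m, h1, h2⟩ := task2 R hR hl i
    exact ⟨_, List.suffix_cons _ _, h2, n, m, h1, by simp⟩
  | t3 i n =>
    obtain ⟨m, h2⟩ := task3 R hl i n
    exact ⟨_, List.suffix_cons _ _, h2, m, by simp⟩

lemma C_mono {l l' : List (Atom ι)} (h : l <:+ l') : C R l' ⊆ C R l :=
  fun _ hX => ⟨hX.1, fun a ha => hX.2 a (h.subset ha)⟩

lemma C_nil : (C R []).Nonempty := ⟨fun _ => U R, rfl, by simp⟩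

end

/-- Main theorem of this file: a countable set of functions that is absolute for countably many
closed relations and omits the universal set relative to one of its members. -/
theorem beta_omit {ι : Type} [Countable ι] (R : ι → Set (B × B × B))
    (hR : ∀ e, IsClosed (R e)) :
    ∃ (S : Set B) (u : B), u ∈ S ∧
      (∀ e, ∀ x₁ ∈ S, ∀ x₂ ∈ S, (∃ y, (x₁, x₂, y) ∈ R e) → ∃ y ∈ S, (x₁, x₂, y) ∈ R e) ∧
      (fun n => if ∃ y : B, ∀ k, u (cd n (pref y k)) = 0 then 0 else 1) ∉ S := by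
  have : Encodable (List (Atom ι) × ℕ) := Encodable.ofCountable _
  have : Nonempty (Task ι) := ⟨.t2 0⟩
  obtain ⟨τ, hτ⟩ := exists_surjective_nat (Task ι)
  choose! f hf1 hf2 hf3 using fun (t : Task ι) (l : List (Atom ι)) (hl : (C R l).Nonempty) =>
    exists_met R hR t hl
  let L : ℕ → List (Atom ι) := fun s => Nat.rec [] (fun s l => f (τ s) l) s
  have hL0 : L 0 = [] := rfl
  have hLs : ∀ s, L (s + 1) = f (τ s) (L s) := fun s => rfl
  have hne : ∀ s, (C R (L s)).Nonempty := by
    intro s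
    induction s with
    | zero => rw [hL0]; exact C_nil R
    | succ s ih => rw [hLs]; exact hf2 _ _ ih
  have hmono : ∀ s t, s ≤ t → L s <:+ L t := by
    intro s t hst
    induction t, hst using Nat.le_induction with
    | base => exact List.suffix_rfl
    | succ t _ ih => rw [hLs]; exact ih.trans (hf1 _ _ (hne t))
  have hmet : ∀ t, ∃ s, met R t (L s) := by
    intro t
    obtain ⟨s, rfl⟩ := hτ t
    exact ⟨s + 1, by rw [hLs]; exact hf3 _ _ (hne s)⟩
  choose Xs hXs using hne
  have hev : ∀ s a, a ∈ L s → ∀ᶠ t in atTop, a.holds R (Xs t) := by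
    intro s a ha
    filter_upwards [eventually_ge_atTop s] with t ht
    exact (hXs t).2 a ((hmono s t ht).subset ha)
  have hbit : ∀ i n : ℕ, ∃ m s, Atom.bit i n m ∈ L s := by
    intro i n
    obtain ⟨s, hs⟩ := hmet (.t3 i n)
    obtain ⟨m, hm⟩ := hs
    exact ⟨m, s, hm⟩
  choose m hm using hbit
  let X : ℕ → B := fun i n => m i n
  have hag : ∀ i n, ∀ᶠ t in atTop, Xs t i n = X i n := by
    intro i n
    obtain ⟨s, hs⟩ := hm i n
    exact hev s _ hs
  have hX : ∀ s, X ∈ C R (L s) := by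
    intro s
    refine mem_of_agree (C_closed R hR _) X Xs ?_ hag
    filter_upwards [eventually_ge_atTop s] with t ht
    exact C_mono R (hmono s t ht) (hXs t)
  have hX0 : X 0 = U R := (hX 0).1
  refine ⟨Set.range X, U R, ⟨0, hX0⟩, ?_, ?_⟩
  · rintro e _ ⟨i, rfl⟩ _ ⟨j, rfl⟩ ⟨y, hy⟩
    obtain ⟨s, hs⟩ := hmet (.t1 e i j)
    rcases hs with ⟨k, hk⟩ | h
    · exact ⟨X k, ⟨k, rfl⟩, (hX s).2 _ hk⟩
    · exact absurd hy (h X (hX s) y)
  · rintro ⟨i, hi⟩
    obtain ⟨s, hs⟩ := hmet (.t2 i)
    obtain ⟨n, m', h1, h2⟩ := hs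
    apply h1
    have h3 : X i n = m' := (hX s).2 _ h2
    rw [← h3, hi]
    rfl

end H674.Beta
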