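import Mathlib
import Pool.Agent.Helper317.PMU.Defs

/-!
Countable abelian groups inside an omega-model of second-order arithmetic, the two test
statements, and the scheme of `Π¹₁` comprehension.
-/

namespace H674.UD

open Pool.Agent.Helper317.SOA Pool.Agent.Helper317.PM

/-- An abelian group whose domain is a set of natural numbers. Outside the domain the values of
`add` and `neg` are irrelevant. -/
structure CGroup where
  dom : Set ℕ
  add : ℕ → ℕ → ℕ
  zero : ℕ
  neg : ℕ → ℕ
  add_mem : ∀ a ∈ dom, ∀ b ∈ dom, add a b ∈ dom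
  zero_mem : zero ∈ dom
  neg_mem : ∀ a ∈ dom, neg a ∈ dom
  add_assoc : ∀ a ∈ dom, ∀ b ∈ dom, ∀ c ∈ dom, add (add a b) c = add a (add b c)
  add_comm : ∀ a ∈ dom, ∀ b ∈ dom, add a b = add b a
  zero_add : ∀ a ∈ dom, add zero a = a
  neg_add : ∀ a ∈ dom, add (neg a) a = zero

/-- The group belongs to the omega-model with second-order part `S`: the domain and the graphs
of the addition and of the inverse do. -/
structure CGroup.In (G : CGroup) (S : Set (Set ℕ)) : Prop where
  dom : G.dom ∈ S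
  add : {x | ∃ a ∈ G.dom, ∃ b ∈ G.dom, x = Nat.pair (Nat.pair a b) (G.add a b)} ∈ S
  neg : {x | ∃ a ∈ G.dom, x = Nat.pair a (G.neg a)} ∈ S

/-- Multiples of an element. -/
def CGroup.mult (G : CGroup) : ℕ → ℕ → ℕ
  | 0, _ => G.zero
  | n + 1, a => G.add (G.mult n a) a

/-- Every element has finite order. -/
def CGroup.Torsion (G : CGroup) : Prop := ∀ a ∈ G.dom, ∃ n, 0 < n ∧ G.mult n a = G.zero

/-- The direct sum; its elements are the codes of pairs. -/
def CGroup.sum (G H : CGroup) : CGroup where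
  dom := {x | x.unpair.1 ∈ G.dom ∧ x.unpair.2 ∈ H.dom}
  add := fun x y => Nat.pair (G.add x.unpair.1 y.unpair.1) (H.add x.unpair.2 y.unpair.2)
  zero := Nat.pair G.zero H.zero
  neg := fun x => Nat.pair (G.neg x.unpair.1) (H.neg x.unpair.2)
  add_mem := by
    rintro a ⟨h1, h2⟩ b ⟨h3, h4⟩
    exact ⟨by simpa using G.add_mem _ h1 _ h3, by simpa using H.add_mem _ h2 _ h4⟩
  zero_mem := ⟨by simpa using G.zero_mem, by simpa using H.zero_mem⟩
  neg_mem := by
    rintro a ⟨h1, h2⟩
    exact ⟨by simpa using G.neg_mem _ h1, by simpa using H.neg_mem _ h2⟩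
  add_assoc := by
    rintro a ⟨h1, h2⟩ b ⟨h3, h4⟩ c ⟨h5, h6⟩
    simp only [Nat.unpair_pair]
    rw [G.add_assoc _ h1 _ h3 _ h5, H.add_assoc _ h2 _ h4 _ h6]
  add_comm := by
    rintro a ⟨h1, h2⟩ b ⟨h3, h4⟩
    rw [G.add_comm _ h1 _ h3, H.add_comm _ h2 _ h4]
  zero_add := by
    rintro a ⟨h1, h2⟩
    simp only [Nat.unpair_pair]
    rw [G.zero_add _ h1, H.zero_add _ h2, Nat.pair_unpair]
  neg_add := by
    rintro a ⟨h1, h2⟩
    simp only [Nat.unpair_pair]
    rw [G.neg_add _ h1, H.neg_add _ h2]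

/-- `G` and `H` are isomorphic in the omega-model with second-order part `S`: there is an
isomorphism whose graph belongs to `S`. -/
def IsoIn (S : Set (Set ℕ)) (G H : CGroup) : Prop :=
  ∃ f : ℕ → ℕ, {x | ∃ a ∈ G.dom, x = Nat.pair a (f a)} ∈ S ∧
    (∀ a ∈ G.dom, f a ∈ H.dom) ∧
    (∀ a ∈ G.dom, ∀ b ∈ G.dom, f a = f b → a = b) ∧
    (∀ b ∈ H.dom, ∃ a ∈ G.dom, f a = b) ∧
    ∀ a ∈ G.dom, ∀ b ∈ G.dom, f (G.add a b) = H.add (f a) (f b)

/-- `G` is a direct summand of `H` in the omega-model with second-order part `S`. -/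
def SummandIn (S : Set (Set ℕ)) (G H : CGroup) : Prop :=
  ∃ K : CGroup, K.In S ∧ IsoIn S H (G.sum K)

/-- Statement (a) of the problem in the omega-model with second-order part `S`. -/
def TestA (S : Set (Set ℕ)) : Prop :=
  ∀ G H : CGroup, G.In S → H.In S → G.Torsion → H.Torsion →
    IsoIn S (G.sum G) (H.sum H) → IsoIn S G H

/-- Statement (b) of the problem in the omega-model with second-order part `S`. -/
def TestB (S : Set (Set ℕ)) : Prop :=
  ∀ G H : CGroup, G.In S → H.In S → G.Torsion → H.Torsion →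
    SummandIn S G H → SummandIn S H G → IsoIn S G H

/-- The scheme of `Π¹₁` comprehension, with number and set parameters: `allS j φ` with `φ`
arithmetical is a `Π¹₁` formula. -/
def Pi11CA (M : Model) : Prop :=
  ∀ φ, IsArith φ → ∀ (i j : ℕ) (v : ℕ → M.Num) (V : ℕ → Set M.Num), M.SetAsg V →
    {a | Sat M (Function.update v i a) V (.allS j φ)} ∈ M.sets

end H674.UD
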