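import Mathlib
import Pool.Agent.H674R2.UB
import Pool.Agent.Helper317.PMU.Defs
import Pool.Agent.H674R2.UD

/-!
From a set of functions with the closure properties of `beta_omit` to an omega-model of ACA0.
-/

namespace H674.Beta

open Filter Topology Classical
open Pool.Agent.Helper317.SOA Pool.Agent.Helper317.PM H674.UD

lemma continuous_ev : Continuous fun q : B × ℕ => q.1 q.2 :=
  continuous_prod_of_discrete_right.2 fun n => by fun_prop

/-- Indicator function. -/
noncomputable def ind (A : Set ℕ) : B := fun n => if n ∈ A then 1 else 0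

lemma ind_eq_one {A : Set ℕ} {n : ℕ} : ind A n = 1 ↔ n ∈ A := by simp [ind]
lemma ind_eq_zero {A : Set ℕ} {n : ℕ} : ind A n = 0 ↔ n ∉ A := by simp [ind]

/-- The set represented by a function. -/
def toSet (x : B) : Set ℕ := {n | x n = 1}

lemma toSet_ind (A : Set ℕ) : toSet (ind A) = A := by ext n; simp [toSet, ind]

/-- Second-order part of the model. -/
def MS (S : Set B) : Set (Set ℕ) := {A | ind A ∈ S}

/-- Infinite decoding. -/
def dec : ℕ → ℕ → ℕ
  | c, 0 => c.unpair.1
  | c, i + 1 => dec c.unpair.2 i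

def upd : ℕ → ℕ → ℕ → ℕ
  | c, 0, a => Nat.pair a c.unpair.2
  | c, i + 1, a => Nat.pair c.unpair.1 (upd c.unpair.2 i a)

lemma dec_upd (c i a : ℕ) : dec (upd c i a) = Function.update (dec c) i a := by
  induction i generalizing c with
  | zero =>
    funext j
    cases j with
    | zero => simp [upd, dec]
    | succ j => simp [upd, dec, Function.update_of_ne]
  | succ i ih =>
    funext j
    cases j with
    | zero => simp [upd, dec, Function.update_of_ne]
    | succ j =>
      simp only [upd, dec, Nat.unpair_pair]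
      rw [ih]
      by_cases h : j = i
      · subst h; simp
      · rw [Function.update_of_ne h, Function.update_of_ne (by omega)]
        simp [dec]

lemma exists_dec (v : ℕ → ℕ) (k : ℕ) : ∃ c, ∀ j < k, dec c j = v j := by
  induction k generalizing v with
  | zero => exact ⟨0, by simp⟩
  | succ k ih =>
    obtain ⟨c, hc⟩ := ih (fun j => v (j + 1))
    refine ⟨Nat.pair (v 0) c, fun j hj => ?_⟩
    cases j with
    | zero => simp [dec]
    | succ j => simp only [dec, Nat.unpair_pair]; exact hc j (by omega)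

/-- Values of terms. -/
def tv (v : ℕ → ℕ) : Tm → ℕ
  | .var i => v i
  | .zero => 0
  | .one => 1
  | .add s t => tv v s + tv v t
  | .mul s t => tv v s * tv v t

lemma val_eq (S : Set (Set ℕ)) (v : ℕ → ℕ) (t : Tm) : Tm.val (omega S) v t = tv v t := by
  induction t with
  | var i => rfl
  | zero => rfl
  | one => rfl
  | add s t hs ht => simp only [Tm.val, tv, hs, ht]; rfl
  | mul s t hs ht => simp only [Tm.val, tv, hs, ht]; rfl

lemma exists_tv_bd (t : Tm) : ∃ k, ∀ v v' : ℕ → ℕ, (∀ j < k, v j = v' j) → tv v t = tv v' t := by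
  induction t with
  | var i => exact ⟨i + 1, fun v v' h => h i (by omega)⟩
  | zero => exact ⟨0, fun _ _ _ => rfl⟩
  | one => exact ⟨0, fun _ _ _ => rfl⟩
  | add s t hs ht =>
    obtain ⟨k, hk⟩ := hs
    obtain ⟨l, hl⟩ := ht
    refine ⟨max k l, fun v v' h => ?_⟩
    simp only [tv]
    rw [hk v v' fun j hj => h j (by omega), hl v v' fun j hj => h j (by omega)]
  | mul s t hs ht =>
    obtain ⟨k, hk⟩ := hs
    obtain ⟨l, hl⟩ := ht
    refine ⟨max k l, fun v v' h => ?_⟩
    simp only [tv]
    rw [hk v v' fun j hj => h j (by omega), hl v v' fun j hj => h j (by omega)]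

/-- Satisfaction in omega-models, with plain types. -/
def Sw (S : Set (Set ℕ)) : (ℕ → ℕ) → (ℕ → Set ℕ) → Fm → Prop
  | v, _, .eq s t => tv v s = tv v t
  | v, _, .lt s t => tv v s < tv v t
  | v, V, .mem t i => tv v t ∈ V i
  | v, V, .neg φ => ¬ Sw S v V φ
  | v, V, .and φ ψ => Sw S v V φ ∧ Sw S v V ψ
  | v, V, .all i φ => ∀ a : ℕ, Sw S (Function.update v i a) V φ
  | v, V, .allS i φ => ∀ A ∈ S, Sw S v (Function.update V i A) φ

lemma sat_iff (S : Set (Set ℕ)) (φ : Fm) : ∀ (v : ℕ → ℕ) (V : ℕ → Set ℕ),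
    Sat (omega S) v V φ ↔ Sw S v V φ := by
  induction φ with
  | eq s t => intro v V; simp only [Sat, Sw, val_eq]; rfl
  | lt s t => intro v V; simp only [Sat, Sw, val_eq]; rfl
  | mem t i => intro v V; simp only [Sat, Sw, val_eq]; rfl
  | neg φ ih => intro v V; simp only [Sat, Sw, ih]
  | and φ ψ ih ih' => intro v V; simp only [Sat, Sw, ih, ih']
  | all i φ ih =>
    intro v V
    exact forall_congr' fun a => ih _ _
  | allS i φ ih =>
    intro v V
    exact forall_congr' fun A => imp_congr_right fun _ => ih _ _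

lemma exists_sat_bd (S : Set (Set ℕ)) (φ : Fm) : ∃ k, ∀ (v v' : ℕ → ℕ) (V : ℕ → Set ℕ),
    (∀ j < k, v j = v' j) → (Sw S v V φ ↔ Sw S v' V φ) := by
  induction φ with
  | eq s t =>
    obtain ⟨k, hk⟩ := exists_tv_bd s
    obtain ⟨l, hl⟩ := exists_tv_bd t
    refine ⟨max k l, fun v v' V h => ?_⟩
    simp only [Sw]
    rw [hk v v' fun j hj => h j (by omega), hl v v' fun j hj => h j (by omega)]
  | lt s t =>
    obtain ⟨k, hk⟩ := exists_tv_bd s
    obtain ⟨l, hl⟩ := exists_tv_bd t
    refine ⟨max k l, fun v v' V h => ?_⟩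
    simp only [Sw]
    rw [hk v v' fun j hj => h j (by omega), hl v v' fun j hj => h j (by omega)]
  | mem t i =>
    obtain ⟨l, hl⟩ := exists_tv_bd t
    refine ⟨l, fun v v' V h => ?_⟩
    simp only [Sw]
    rw [hl v v' fun j hj => h j (by omega)]
  | neg φ ih =>
    obtain ⟨k, hk⟩ := ih
    exact ⟨k, fun v v' V h => not_congr (hk v v' V h)⟩
  | and φ ψ ih ih' =>
    obtain ⟨k, hk⟩ := ih
    obtain ⟨l, hl⟩ := ih'
    exact ⟨max k l, fun v v' V h => and_congr (hk v v' V fun j hj => h j (by omega))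
      (hl v v' V fun j hj => h j (by omega))⟩
  | all i φ ih =>
    obtain ⟨k, hk⟩ := ih
    refine ⟨k, fun v v' V h => forall_congr' fun a => hk _ _ V fun j hj => ?_⟩
    by_cases hji : j = i
    · subst hji; simp
    · rw [Function.update_of_ne hji, Function.update_of_ne hji]; exact h j hj
  | allS i φ ih =>
    obtain ⟨k, hk⟩ := ih
    exact ⟨k, fun v v' V h => forall_congr' fun A => imp_congr_right fun _ => hk _ _ _ h⟩

deriving instance Countable for Tm

/-- Index type of the continuous operations. -/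
inductive Op
  | cEq (s t : Tm)
  | cLt (s t : Tm)
  | cSet (i : ℕ)
  | pTm (t : Tm)
  | pUpd (c i : ℕ)
  | dbl
  | dbl1
  | join
  | neg
  | and
  | graph
  | data

deriving instance Countable for Op

/-- Pairing function in the language of arithmetic. -/
def pp (a b : ℕ) : ℕ := (a + b) * (a + b) + a

lemma pp_inj {a b a' b' : ℕ} (h : pp a b = pp a' b') : a = a' ∧ b = b' := by
  unfold pp at h
  have h1 : a + b = a' + b' := by
    rcases lt_trichotomy (a + b) (a' + b') with h2 | h2 | h2
    · exfalso; nlinarith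
    · exact h2
    · exfalso; nlinarith
  have h2 : a = a' := by rw [h1] at h; omega
  exact ⟨h2, by omega⟩

/-- Fixed sets used in the definition of the omitted set. -/
def cset : ℕ → Set ℕ
  | 0 => {x | ∃ c n σ, x = pp c n ∧ c = cd n σ}
  | 1 => {x | ∃ c n σ, c = cd n σ ∧ ∃ i, ∃ h : i < σ.length, x = pp (pp c i) σ[i]}
  | _ => ∅

/-- The continuous operations. -/
noncomputable def opf : Op → B × B → B
  | .cEq s t, _ => fun c => if tv (dec c) s = tv (dec c) t then 1 else 0
  | .cLt s t, _ => fun c => if tv (dec c) s < tv (dec c) t then 1 else 0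
  | .cSet i, _ => ind (cset i)
  | .pTm t, x => fun c => x.1 (tv (dec c) t)
  | .pUpd c i, x => fun a => x.1 (upd c i a)
  | .dbl, x => fun n => x.1 (2 * n)
  | .dbl1, x => fun n => x.1 (2 * n + 1)
  | .join, x => fun n => if n % 2 = 0 then x.1 (n / 2) else x.2 (n / 2)
  | .neg, x => fun n => if x.1 n = 1 then 0 else 1
  | .and, x => fun n => if x.1 n = 1 ∧ x.2 n = 1 then 1 else 0
  | .graph, x => fun n => if ∃ a b, n = pp a b ∧ x.1 a = b then 1 else 0
  | .data, x => fun n => if x.1 n = 0 then 1 else 0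

lemma continuous_ite_of {f : B × B → ℕ × ℕ} (hf : Continuous f) (P : ℕ × ℕ → Prop)
    {g : B × B → ℕ} (hg : ∀ x, g x = if P (f x) then (1 : ℕ) else 0) :
    Continuous g := by
  have : g = (fun q : ℕ × ℕ => if P q then (1 : ℕ) else 0) ∘ f := by
    funext x; exact hg x
  rw [this]
  exact continuous_of_discreteTopology.comp hf

lemma opf_cont (o : Op) : Continuous (opf o) := by
  refine continuous_pi fun n => ?_
  cases o with
  | cEq s t => exact continuous_const
  | cLt s t => exact continuous_const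
  | cSet i => exact continuous_const
  | pTm t => simp only [opf]; fun_prop
  | pUpd c i => simp only [opf]; fun_prop
  | dbl => simp only [opf]; fun_prop
  | dbl1 => simp only [opf]; fun_prop
  | join =>
    simp only [opf]
    split_ifs
    · fun_prop
    · fun_prop
  | neg =>
    simp only [opf]
    exact (continuous_of_discreteTopology (f := fun q : ℕ => if q = 1 then (0 : ℕ) else 1)).comp
      (g := fun q : ℕ => if q = 1 then (0 : ℕ) else 1) (f := fun x : B × B => x.1 n) (by fun_prop)
  | and =>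
    simp only [opf]
    exact continuous_ite_of (f := fun x : B × B => (x.1 n, x.2 n)) (by fun_prop)
      (fun q => q.1 = 1 ∧ q.2 = 1) (fun x => by congr)
  | graph =>
    simp only [opf]
    by_cases h : ∃ a b, n = pp a b
    · obtain ⟨a, b, rfl⟩ := h
      have : (fun x : B × B => if ∃ a' b', pp a b = pp a' b' ∧ x.1 a' = b' then (1 : ℕ) else 0) =
          fun x : B × B => if x.1 a = b then (1 : ℕ) else 0 := by
        funext x
        congr 1
        apply propext
        constructor
        · rintro ⟨a', b', h1, h2⟩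
          obtain ⟨rfl, rfl⟩ := pp_inj h1
          exact h2
        · intro h; exact ⟨a, b, rfl, h⟩
      rw [this]
      exact continuous_ite_of (f := fun x : B × B => (x.1 a, b)) (by fun_prop)
        (fun q => q.1 = q.2) (fun x => by congr)
    · have : (fun x : B × B => if ∃ a' b', n = pp a' b' ∧ x.1 a' = b' then (1 : ℕ) else 0) =
          fun x : B × B => 0 := by
        funext x
        rw [if_neg]
        rintro ⟨a', b', h1, _⟩
        exact h ⟨a', b', h1⟩
      rw [this]
      exact continuous_const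
  | data =>
    simp only [opf]
    exact continuous_ite_of (f := fun x : B × B => (x.1 n, 0)) (by fun_prop)
      (fun q => q.1 = 0) (fun x => by congr)

/-- Relation for a universal number quantifier. -/
def Rall (i : ℕ) : Set (B × B × B) :=
  {q | ∀ c, (q.2.2 (2 * c) = 1 ∧ ∀ a, q.1 (upd c i a) = 1) ∨
    (q.2.2 (2 * c) = 0 ∧ q.1 (upd c i (q.2.2 (2 * c + 1))) ≠ 1)}

lemma Rall_closed (i : ℕ) : IsClosed (Rall i) := by
  have : Rall i = ⋂ c, (({q | q.2.2 (2 * c) = 1} ∩ ⋂ a, {q | q.1 (upd c i a) = 1}) ∪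
      ({q | q.2.2 (2 * c) = 0} ∩ {q | q.1 (upd c i (q.2.2 (2 * c + 1))) ≠ 1})) := by
    ext q; simp [Rall]
  rw [this]
  refine isClosed_iInter fun c => IsClosed.union (IsClosed.inter ?_ ?_) (IsClosed.inter ?_ ?_)
  · exact isClosed_eq (by fun_prop) (by fun_prop)
  · exact isClosed_iInter fun a => isClosed_eq (by fun_prop) (by fun_prop)
  · exact isClosed_eq (by fun_prop) (by fun_prop)
  · have hc : Continuous fun q : B × B × B => q.1 (upd c i (q.2.2 (2 * c + 1))) := by
      refine continuous_ev.comp (g := fun q : B × ℕ => q.1 q.2)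
        (f := fun q : B × B × B => (q.1, upd c i (q.2.2 (2 * c + 1)))) ?_
      refine Continuous.prodMk continuous_fst ?_
      exact (continuous_of_discreteTopology (f := fun m : ℕ => upd c i m)).comp (by fun_prop)
    exact (isClosed_discrete {m : ℕ | m ≠ 1}).preimage hc

/-- Relation for the trees of the universal family. -/
def Rtree (n : ℕ) : Set (B × B × B) := {q | ∀ k, q.1 (cd n (pref q.2.2 k)) = 0}

lemma Rtree_closed (n : ℕ) : IsClosed (Rtree n) := by
  have hagree : ∀ k (y y' : B), (∀ i < k, y i = y' i) → pref y k = pref y' k := by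
    intro k y y' h
    unfold pref
    exact List.map_congr_left fun i hi => h i (List.mem_range.1 hi)
  rw [← isOpen_compl_iff]
  rw [isOpen_iff_mem_nhds]
  rintro ⟨x, x', y⟩ hq
  simp only [Rtree, Set.mem_compl_iff, Set.mem_ofPred_eq, not_forall] at hq
  obtain ⟨k, hk⟩ := hq
  have h1 : IsOpen {q : B × B × B | q.1 (cd n (pref y k)) = x (cd n (pref y k))} :=
    (isOpen_discrete {m : ℕ | m = x (cd n (pref y k))}).preimage
      (f := fun q : B × B × B => q.1 (cd n (pref y k))) (by fun_prop)
  have h2 : IsOpen {q : B × B × B | ∀ i ∈ Finset.range k, q.2.2 i = y i} := by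
    have : {q : B × B × B | ∀ i ∈ Finset.range k, q.2.2 i = y i} =
        ⋂ i ∈ Finset.range k, {q : B × B × B | q.2.2 i = y i} := by ext q; simp
    rw [this]
    exact isOpen_biInter_finset fun i _ => (isOpen_discrete {m : ℕ | m = y i}).preimage
      (f := fun q : B × B × B => q.2.2 i) (by fun_prop)
  filter_upwards [(h1.inter h2).mem_nhds (by simp : (x, x', y) ∈ _)] with q hq
  simp only [Rtree, Set.mem_compl_iff, Set.mem_ofPred_eq, not_forall]
  refine ⟨k, ?_⟩
  rw [hagree k q.2.2 y fun i hi => hq.2 i (by simpa using hi)]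
  rw [hq.1]
  exact hk

/-- Closure properties of the set of functions. -/
structure Good (S : Set B) : Prop where
  op : ∀ o, ∀ x ∈ S, ∀ y ∈ S, opf o (x, y) ∈ S
  all : ∀ i, ∀ x ∈ S, ∀ y ∈ S, (∃ w, (x, y, w) ∈ Rall i) → ∃ w ∈ S, (x, y, w) ∈ Rall i
  tree : ∀ i, ∀ x ∈ S, ∀ y ∈ S, (∃ w, (x, y, w) ∈ Rtree i) → ∃ w ∈ S, (x, y, w) ∈ Rtree i
  ne : S.Nonempty

lemma aca_dec {S : Set B} (hS : Good S) {φ : Fm} (hφ : IsArith φ) (V : ℕ → Set ℕ)
    (hV : ∀ j, V j ∈ MS S) : {c | Sw (MS S) (dec c) V φ} ∈ MS S := by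
  obtain ⟨x₀, hx₀⟩ := hS.ne
  induction hφ with
  | eq s t =>
    show ind _ ∈ S
    have := hS.op (.cEq s t) x₀ hx₀ x₀ hx₀
    convert this using 1
    funext c
    exact if_congr Iff.rfl rfl rfl
  | lt s t =>
    show ind _ ∈ S
    have := hS.op (.cLt s t) x₀ hx₀ x₀ hx₀
    convert this using 1
    funext c
    exact if_congr Iff.rfl rfl rfl
  | mem t i =>
    show ind _ ∈ S
    have := hS.op (.pTm t) _ (hV i) x₀ hx₀
    convert this using 1
    funext c
    exact if_congr Iff.rfl rfl rfl
  | @neg φ hφ ih =>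
    show ind _ ∈ S
    have := hS.op .neg _ ih x₀ hx₀
    convert this using 1
    funext c
    simp only [opf, ind, Set.mem_ofPred_eq, Sw]
    by_cases h : Sw (MS S) (dec c) V φ <;> simp [h]
  | @and φ ψ hφ hψ ih ih' =>
    show ind _ ∈ S
    have := hS.op .and _ ih _ ih'
    convert this using 1
    funext c
    simp only [opf, ind, Set.mem_ofPred_eq, Sw]
    by_cases h : Sw (MS S) (dec c) V φ <;> by_cases h' : Sw (MS S) (dec c) V ψ <;> simp [h, h']
  | @all i φ hφ ih =>
    set A : Set ℕ := {c | Sw (MS S) (dec c) V φ} with hA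
    have hT : ∀ c, c ∈ {c | Sw (MS S) (dec c) V (.all i φ)} ↔ ∀ a, upd c i a ∈ A := by
      intro c
      simp only [hA, Set.mem_ofPred_eq, dec_upd, Sw]
    set T : Set ℕ := {c | Sw (MS S) (dec c) V (.all i φ)} with hTdef
    have hex : ∀ c, c ∉ T → ∃ a, upd c i a ∉ A := by
      intro c hc
      by_contra hcon
      push Not at hcon
      exact hc ((hT c).2 hcon)
    choose! g hg using hex
    have hw : ∃ w, (ind A, x₀, w) ∈ Rall i := by
      refine ⟨fun n => if n % 2 = 0 then ind T (n / 2) else g (n / 2), fun c => ?_⟩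
      have e1 : 2 * c % 2 = 0 := by omega
      have e2 : 2 * c / 2 = c := by omega
      have e3 : (2 * c + 1) % 2 = 1 := by omega
      have e4 : (2 * c + 1) / 2 = c := by omega
      simp only [e1, e2, e3, e4, if_true]
      by_cases hc : c ∈ T
      · left
        exact ⟨ind_eq_one.2 hc, fun a => ind_eq_one.2 ((hT c).1 hc a)⟩
      · right
        refine ⟨ind_eq_zero.2 hc, ?_⟩
        simp only [one_ne_zero, if_false]
        intro h
        exact hg c hc (ind_eq_one.1 h)
    obtain ⟨w, hwS, hw⟩ := hS.all i _ ih x₀ hx₀ hw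
    show ind T ∈ S
    have := hS.op .dbl _ hwS x₀ hx₀
    convert this using 1
    funext c
    simp only [opf]
    rcases hw c with ⟨h1, h2⟩ | ⟨h1, h2⟩
    · simp only at h1 h2
      rw [h1]
      exact ind_eq_one.2 ((hT c).2 fun a => ind_eq_one.1 (h2 a))
    · simp only at h1 h2
      rw [h1]
      refine ind_eq_zero.2 fun hc => h2 ?_
      exact ind_eq_one.2 ((hT c).1 hc _)

theorem aca_of_good {S : Set B} (hS : Good S) : ACA (omega (MS S)) := by
  intro φ hφ i v V hV
  obtain ⟨x₀, hx₀⟩ := hS.ne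
  have h1 := aca_dec hS hφ V hV
  obtain ⟨k, hk⟩ := exists_sat_bd (MS S) φ
  obtain ⟨c, hc⟩ := exists_dec v k
  have h2 := hS.op (.pUpd c i) _ h1 x₀ hx₀
  show ind _ ∈ S
  convert h2 using 1
  funext a
  simp only [opf, ind]
  have : (a ∈ ({a | Sat (omega (MS S)) (Function.update v i a) V φ} : Set ℕ)) ↔
      (upd c i a ∈ {c | Sw (MS S) (dec c) V φ}) := by
    refine (sat_iff (MS S) φ (Function.update v i a) V).trans ?_
    show _ ↔ Sw (MS S) (dec (upd c i a)) V φ
    rw [dec_upd]
    refine hk _ _ V fun j hj => ?_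
    by_cases h : j = i
    · subst h
      exact (Function.update_self (β := fun _ => ℕ) j a v).trans
        (Function.update_self (β := fun _ => ℕ) j a (dec c)).symm
    · exact (Function.update_of_ne h ..).trans
        ((hc j hj).symm.trans (Function.update_of_ne h ..).symm)
  exact if_congr this rfl rfl

lemma isArith_delta0 {φ : Fm} (h : IsDelta0 φ) : IsArith φ := by
  induction h with
  | eq s t => exact .eq s t
  | lt s t => exact .lt s t
  | mem t i => exact .mem t i
  | neg _ ih => exact .neg ih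
  | and _ _ ih ih' => exact .and ih ih'
  | ball i t _ _ ih => exact .all i (.neg (.and (.lt _ _) (.neg ih)))

theorem rca0_of_aca {𝒮 : Set (Set ℕ)} (h : ACA (omega 𝒮)) : RCA0 (omega 𝒮) where
  basic :=
    { succ_ne_zero := fun n => Nat.succ_ne_zero n
      succ_inj := fun m n h => Nat.succ_injective h
      add_zero := fun m => rfl
      add_succ := fun m n => rfl
      mul_zero := fun m => rfl
      mul_succ := fun m n => rfl
      not_lt_zero := fun m => Nat.not_lt_zero m
      lt_succ := fun m n => Nat.lt_succ_iff_lt_or_eq }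
  induction := by
    intro φ _ i v V _ h0 hs a
    exact Nat.rec (motive := fun a => Sat (omega 𝒮) (Function.update v i a) V φ) h0 hs a
  comprehension := by
    rintro φ ψ ⟨i', φ', rfl, hφ⟩ _ i v V hV _
    exact h _ (.neg (.all _ (.neg (isArith_delta0 hφ)))) i v V hV

/-- Pairing term. -/
def ppT (s t : Tm) : Tm := .add (.mul (.add s t) (.add s t)) s

/-- The formula used for the failure of `Π¹₁` comprehension. -/
def badF : Fm :=
  .imp (.all 1 (.ex 2 (.mem (ppT (.var 1) (.var 2)) 0)))
    (.ex 3 (.and (.mem (ppT (.var 3) (.var 0)) 1) (.and (.neg (.mem (.var 3) 3))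
      (.all 1 (.all 2 (.imp (.mem (ppT (ppT (.var 3) (.var 1)) (.var 2)) 2)
        (.and (.mem (ppT (.var 1) (.var 2)) 0)
          (.all 4 (.imp (.lt (.var 4) (.var 2)) (.neg (.mem (ppT (.var 1) (.var 4)) 0)))))))))))

lemma sw_ex (𝒮 : Set (Set ℕ)) (v : ℕ → ℕ) (V : ℕ → Set ℕ) (i : ℕ) (φ : Fm) :
    Sw 𝒮 v V (.ex i φ) ↔ ∃ a, Sw 𝒮 (Function.update v i a) V φ := by
  simp [Fm.ex, Sw]

lemma sw_imp (𝒮 : Set (Set ℕ)) (v : ℕ → ℕ) (V : ℕ → Set ℕ) (φ ψ : Fm) :
    Sw 𝒮 v V (.imp φ ψ) ↔ (Sw 𝒮 v V φ → Sw 𝒮 v V ψ) := by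
  simp [Fm.imp, Sw]

lemma badF_arith : IsArith badF := by
  unfold badF Fm.imp Fm.ex
  repeat' constructor

lemma sw_badF (𝒮 : Set (Set ℕ)) (v : ℕ → ℕ) (V : ℕ → Set ℕ) : Sw 𝒮 v V badF ↔
    ((∀ i, ∃ m, pp i m ∈ V 0) → ∃ c, pp c (v 0) ∈ V 1 ∧ c ∉ V 3 ∧ ∀ i m, pp (pp c i) m ∈ V 2 →
      pp i m ∈ V 0 ∧ ∀ m' < m, pp i m' ∉ V 0) := by
  simp only [badF, sw_ex, sw_imp, Sw, tv, ppT]
  simp [Function.update, pp]

theorem not_pi11 {S : Set B} (hS : Good S) {u : B} (hu : u ∈ S)
    (hz : (fun n => if ∃ y : B, ∀ k, u (cd n (pref y k)) = 0 then 0 else 1) ∉ S) :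
    ¬ Pi11CA (omega (MS S)) := by
  intro hP
  apply hz
  set V : ℕ → Set ℕ := fun i => if i = 1 then cset 0 else if i = 2 then cset 1 else
    if i = 3 then {c | u c = 0} else ∅ with hV
  have hVS : ∀ j, V j ∈ MS S := by
    have h0 : (∅ : Set ℕ) ∈ MS S := by
      exact hS.op (.cSet 2) u hu u hu
    intro j
    simp only [hV]
    split_ifs
    · exact hS.op (.cSet 0) u hu u hu
    · exact hS.op (.cSet 1) u hu u hu
    · show ind _ ∈ S
      have := hS.op .data u hu u hu
      convert this using 1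
      funext c
      simp [ind, opf]
    · exact h0
  have key := hP badF badF_arith 0 0 (fun _ => (0 : ℕ)) V hVS
  have key2 : ind _ ∈ S := key
  convert key2 using 1
  funext n
  have hiff : (∃ y : B, ∀ k, u (cd n (pref y k)) = 0) ↔
      ¬ (n ∈ ({a | Sat (omega (MS S)) (Function.update (fun _ => (0 : ℕ)) 0 a) V (.allS 0 badF)} :
        Set ℕ)) := by
    have e : (n ∈ ({a | Sat (omega (MS S)) (Function.update (fun _ => (0 : ℕ)) 0 a) V
        (.allS 0 badF)} : Set ℕ)) ↔ ∀ Y ∈ MS S,
        Sw (MS S) (Function.update (fun _ => (0 : ℕ)) 0 n) (Function.update V 0 Y) badF :=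
      sat_iff (MS S) (.allS 0 badF) (Function.update (fun _ => (0 : ℕ)) 0 n) V
    rw [e]
    have hiff2 : ∀ Y, Sw (MS S) (Function.update (fun _ => (0 : ℕ)) 0 n) (Function.update V 0 Y) badF ↔
        ((∀ i, ∃ m, pp i m ∈ Y) → ∃ c, pp c n ∈ cset 0 ∧ u c ≠ 0 ∧ ∀ i m,
          pp (pp c i) m ∈ cset 1 → pp i m ∈ Y ∧ ∀ m' < m, pp i m' ∉ Y) := by
      intro Y
      rw [sw_badF]
      have g0 : Function.update V 0 Y 0 = Y := Function.update_self ..
      have g1 : Function.update V 0 Y 1 = cset 0 := Function.update_of_ne (by decide) ..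
      have g2 : Function.update V 0 Y 2 = cset 1 := Function.update_of_ne (by decide) ..
      have g3 : Function.update V 0 Y 3 = {c | u c = 0} := Function.update_of_ne (by decide) ..
      rw [g0, g1, g2, g3, Function.update_self]
      rfl
    constructor
    · intro hy hall
      obtain ⟨y, hyS, hy⟩ := hS.tree n u hu u hu hy
      have hY : {x | ∃ a b, x = pp a b ∧ y a = b} ∈ MS S := by
        show ind _ ∈ S
        have := hS.op .graph y hyS u hu
        convert this using 1
        funext c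
        exact if_congr Iff.rfl rfl rfl
      obtain ⟨c, ⟨c', n', σ, h1, h2⟩, hc2, hc3⟩ :=
        (hiff2 _).1 (hall _ hY) (fun i => ⟨y i, i, y i, rfl, rfl⟩)
      obtain ⟨rfl, rfl⟩ := pp_inj h1
      apply hc2
      have h4 : σ = pref y σ.length := by
        refine List.ext_getElem (by simp) fun i h3 h4 => ?_
        have h5 := (hc3 i σ[i] ⟨c, n, σ, h2, i, h3, rfl⟩).1
        obtain ⟨a, b, h6, h7⟩ := h5
        obtain ⟨rfl, rfl⟩ := pp_inj h6
        simp [pref, h7]
      have h5 := hy σ.length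
      rw [← h4, ← h2] at h5
      exact h5
    · intro hall
      by_contra hn
      apply hall
      intro Y hY
      rw [hiff2]
      intro hY2
      have hn' := not_exists.1 hn (fun i => Nat.find (hY2 i))
      push Not at hn'
      obtain ⟨k, hk⟩ := hn'
      refine ⟨_, ⟨_, n, _, rfl, rfl⟩, hk, ?_⟩
      rintro i m ⟨c, n', σ, h1, i', hi', h2⟩
      obtain ⟨h3, rfl⟩ := pp_inj h2
      obtain ⟨rfl, rfl⟩ := pp_inj h3
      obtain ⟨rfl, rfl⟩ := cd_inj h1
      have h4 : (pref (fun i => Nat.find (hY2 i)) k)[i] = Nat.find (hY2 i) := by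
        simp [pref]
      rw [h4]
      exact ⟨Nat.find_spec (hY2 i), fun m' hm' => Nat.find_min (hY2 i) hm'⟩
  by_cases hn : (∃ y : B, ∀ k, u (cd n (pref y k)) = 0)
  · rw [if_pos hn]
    exact (ind_eq_zero.2 (hiff.1 hn)).symm
  · rw [if_neg hn]
    exact (ind_eq_one.2 (not_not.1 fun h => hn (hiff.2 h))).symm

end H674.Beta
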