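import Mathlib

/-!
Heights and Ulm invariants in abelian groups.
-/

namespace H674.Ulm

open Ordinal

/-- The subgroups `p^α G`. -/
noncomputable def P (G : Type) [AddCommGroup G] (p : ℕ) (α : Ordinal.{0}) : AddSubgroup G :=
  ⨅ β : Set.Iio α, (P G p β.1).map (nsmulAddMonoidHom (α := G) p)
termination_by α
decreasing_by exact β.2

section
variable {G : Type} [AddCommGroup G] {p : ℕ}

lemma mem_P {α : Ordinal.{0}} {x : G} : x ∈ P G p α ↔ ∀ β < α, ∃ y ∈ P G p β, p • y = x := by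
  rw [P, AddSubgroup.mem_iInf]
  constructor
  · intro h β hβ
    obtain ⟨y, hy, hxy⟩ := AddSubgroup.mem_map.1 (h ⟨β, hβ⟩)
    exact ⟨y, hy, hxy⟩
  · rintro h ⟨β, hβ⟩
    obtain ⟨y, hy, hxy⟩ := h β hβ
    exact AddSubgroup.mem_map.2 ⟨y, hy, hxy⟩

lemma P_anti {α β : Ordinal.{0}} (h : α ≤ β) {x : G} (hx : x ∈ P G p β) : x ∈ P G p α :=
  mem_P.2 fun γ hγ => mem_P.1 hx γ (hγ.trans_le h)

lemma mem_P_succ {α : Ordinal.{0}} {x : G} : x ∈ P G p (α + 1) ↔ ∃ y ∈ P G p α, p • y = x := by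
  constructor
  · intro h
    exact mem_P.1 h α (Order.lt_add_one_iff.2 le_rfl)
  · rintro ⟨y, hy, rfl⟩
    exact mem_P.2 fun β hβ => ⟨y, P_anti (Order.lt_add_one_iff.1 hβ) hy, rfl⟩

lemma mem_P_zero (x : G) : x ∈ P G p 0 := mem_P.2 fun β hβ => absurd hβ not_lt_bot

lemma smul_mem_succ {α : Ordinal.{0}} {x : G} (hx : x ∈ P G p α) : p • x ∈ P G p (α + 1) :=
  mem_P_succ.2 ⟨x, hx, rfl⟩

/-- Elements of order prime to `p` have infinite height. -/
lemma mem_P_coprime {m : ℕ} (hm : Nat.Coprime p m) (α : Ordinal.{0}) :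
    ∀ x : G, m • x = 0 → x ∈ P G p α := by
  induction α using WellFoundedLT.induction with
  | ind α ih =>
    intro x hx
    refine mem_P.2 fun β hβ => ?_
    obtain ⟨u, v, huv⟩ : ∃ u v : ℤ, (p : ℤ) * u + m * v = 1 := by
      have := Nat.gcd_eq_gcd_ab p m
      rw [hm] at this
      exact ⟨_, _, by exact_mod_cast this.symm⟩
    refine ⟨u • x, ih β hβ _ ?_, ?_⟩
    · rw [smul_comm, hx, smul_zero]
    · have h1 : ((p : ℤ) * u + m * v) • x = x := by rw [huv, one_smul]
      rw [add_smul, mul_smul, mul_comm (m : ℤ) v, mul_smul] at h1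
      rw [natCast_zsmul x m, hx, smul_zero, add_zero, natCast_zsmul] at h1
      exact h1

variable (G p) in
/-- The elements of infinite height. -/
noncomputable def Pinf : AddSubgroup G := ⨅ α : Ordinal.{0}, P G p α

lemma mem_Pinf {x : G} : x ∈ Pinf G p ↔ ∀ α, x ∈ P G p α := AddSubgroup.mem_iInf

variable (G p) in
lemma exists_stab : ∃ α : Ordinal.{0}, P G p α = P G p (α + 1) := by
  by_contra h
  push Not at h
  refine not_injective_of_ordinal.{0} (fun α : Ordinal.{0} => P G p α) ?_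
  have hlt : ∀ α β : Ordinal.{0}, α < β → P G p α ≠ P G p β := by
    intro α β hαβ he
    apply h α
    apply le_antisymm
    · intro x hx
      rw [he] at hx
      exact P_anti (Order.add_one_le_of_lt hαβ) hx
    · intro x hx
      exact P_anti (le_of_lt (Order.lt_add_one_iff.2 le_rfl)) hx
  intro α β hαβ
  rcases lt_trichotomy α β with h1 | h1 | h1
  · exact absurd hαβ (hlt _ _ h1)
  · exact h1
  · exact absurd hαβ.symm (hlt _ _ h1)

lemma Pinf_div {x : G} (hx : x ∈ Pinf G p) : ∃ y ∈ Pinf G p, p • y = x := by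
  obtain ⟨μ, hμ⟩ := exists_stab G p
  have hst : ∀ α : Ordinal.{0}, ∀ y ∈ P G p μ, y ∈ P G p α := by
    intro α
    induction α using WellFoundedLT.induction with
    | ind α ih =>
      intro y hy
      refine mem_P.2 fun β hβ => ?_
      have hy' : y ∈ P G p (μ + 1) := hμ ▸ hy
      obtain ⟨z, hz, hzy⟩ := mem_P_succ.1 hy'
      exact ⟨z, ih β hβ z hz, hzy⟩
  obtain ⟨y, hy, hyx⟩ := mem_P_succ.1 (mem_Pinf.1 hx (μ + 1))
  exact ⟨y, mem_Pinf.2 fun α => hst α y hy, hyx⟩

variable (p) in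
/-- The height of an element. -/
noncomputable def rk (x : G) : WithTop Ordinal.{0} :=
  open Classical in
  if ∀ α, x ∈ P G p α then ⊤ else ((sInf {α | x ∉ P G p (α + 1)} : Ordinal.{0}) : WithTop Ordinal.{0})

lemma le_rk {x : G} {α : Ordinal.{0}} : (α : WithTop Ordinal.{0}) ≤ rk p x ↔ x ∈ P G p α := by
  unfold rk
  split_ifs with h
  · simp [h α]
  · push Not at h
    obtain ⟨γ, hγ⟩ := h
    have hne : {α | x ∉ P G p (α + 1)}.Nonempty :=
      ⟨γ, fun h => hγ (P_anti (le_of_lt (Order.lt_add_one_iff.2 le_rfl)) h)⟩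
    have hmem := csInf_mem hne
    rw [WithTop.coe_le_coe]
    constructor
    · intro hα
      refine mem_P.2 fun β hβ => ?_
      have h1 : β ∉ {α | x ∉ P G p (α + 1)} := notMem_of_lt_csInf (hβ.trans_le hα) (OrderBot.bddBelow _)
      simp only [Set.mem_ofPred_eq, not_not] at h1
      exact mem_P_succ.1 h1
    · intro hα
      by_contra hlt
      push Not at hlt
      exact hmem (P_anti (Order.add_one_le_of_lt hlt) hα)

lemma rk_le_iff {x y : G} : rk p x ≤ rk p y ↔ ∀ α, x ∈ P G p α → y ∈ P G p α := by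
  constructor
  · intro h α hx
    exact le_rk.1 ((le_rk.2 hx).trans h)
  · intro h
    cases hx : rk p x with
    | top =>
      have : ∀ α, y ∈ P G p α := fun α => h α (le_rk.1 (by rw [hx]; exact le_top))
      unfold rk
      rw [if_pos this]
    | coe α =>
      refine le_rk.2 (h α (le_rk.1 ?_))
      rw [hx]

lemma rk_congr {x y : G} (h : ∀ α, x ∈ P G p α ↔ y ∈ P G p α) : rk p x = rk p y :=
  le_antisymm (rk_le_iff.2 fun α => (h α).1) (rk_le_iff.2 fun α => (h α).2)

variable (G p) in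
/-- Auxiliary subgroups for the Ulm invariants. -/
noncomputable def D (α : Ordinal.{0}) : AddSubgroup G :=
  P G p α ⊓ (P G p (α + 2)).comap (nsmulAddMonoidHom (α := G) p)

lemma mem_D {α : Ordinal.{0}} {x : G} :
    x ∈ D G p α ↔ x ∈ P G p α ∧ p • x ∈ P G p (α + 2) := Iff.rfl

lemma P_le_D (α : Ordinal.{0}) : P G p (α + 1) ≤ D G p α := by
  intro x hx
  refine mem_D.2 ⟨P_anti (le_of_lt (Order.lt_add_one_iff.2 le_rfl)) hx, ?_⟩
  have := smul_mem_succ hx
  rw [add_assoc, one_add_one_eq_two] at this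
  exact this

variable (G p) in
/-- Ulm invariants; 0 stands for infinity. -/
noncomputable def inv (α : Ordinal.{0}) : ℕ := (P G p (α + 1)).relIndex (D G p α)

variable (G p) in
/-- Elements of order `p` and infinite height. -/
noncomputable def Sinf : AddSubgroup G := Pinf G p ⊓ (nsmulAddMonoidHom (α := G) p).ker

lemma mem_Sinf {x : G} : x ∈ Sinf G p ↔ x ∈ Pinf G p ∧ p • x = 0 := Iff.rfl

end

section
variable {G H : Type} [AddCommGroup G] [AddCommGroup H] {p : ℕ}

lemma mem_P_equiv (e : G ≃+ H) (α : Ordinal.{0}) :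
    ∀ x : G, e x ∈ P H p α ↔ x ∈ P G p α := by
  induction α using WellFoundedLT.induction with
  | ind α ih =>
    intro x
    rw [mem_P, mem_P]
    refine forall_congr' fun β => imp_congr_right fun hβ => ?_
    constructor
    · rintro ⟨y, hy, hyx⟩
      refine ⟨e.symm y, (ih β hβ _).1 (by simpa using hy), ?_⟩
      apply e.injective
      rw [map_nsmul, AddEquiv.apply_symm_apply, hyx]
    · rintro ⟨y, hy, rfl⟩
      exact ⟨e y, (ih β hβ _).2 hy, by rw [map_nsmul]⟩

lemma inv_equiv (e : G ≃+ H) (α : Ordinal.{0}) : inv G p α = inv H p α := by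
  have h1 : P G p (α + 1) = (P H p (α + 1)).comap e.toAddMonoidHom := by
    ext x; exact (mem_P_equiv e _ x).symm
  have h2 : (D G p α).map e.toAddMonoidHom = D H p α := by
    ext y
    rw [AddSubgroup.mem_map]
    constructor
    · rintro ⟨x, hx, rfl⟩
      refine mem_D.2 ⟨(mem_P_equiv e _ x).2 hx.1, ?_⟩
      have := (mem_P_equiv (p := p) e _ (p • x)).2 hx.2
      rw [map_nsmul] at this
      exact this
    · intro hy
      refine ⟨e.symm y, mem_D.2 ⟨(mem_P_equiv e _ _).1 (by simpa using hy.1),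
        (mem_P_equiv e _ _).1 ?_⟩, by simp⟩
      rw [map_nsmul, AddEquiv.apply_symm_apply]
      exact hy.2
  unfold inv
  rw [h1, AddSubgroup.relIndex_comap, h2]

lemma Sinf_equiv (e : G ≃+ H) : Nat.card (Sinf G p) = Nat.card (Sinf H p) := by
  refine Nat.card_congr ?_
  refine e.toEquiv.subtypeEquiv fun x => ?_
  rw [mem_Sinf, mem_Sinf, mem_Pinf, mem_Pinf]
  refine and_congr (forall_congr' fun α => (mem_P_equiv e α x).symm) ?_
  rw [← map_eq_zero_iff e e.injective, map_nsmul]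
  rfl

lemma mem_P_prod (α : Ordinal.{0}) :
    ∀ x : G × H, x ∈ P (G × H) p α ↔ x.1 ∈ P G p α ∧ x.2 ∈ P H p α := by
  induction α using WellFoundedLT.induction with
  | ind α ih =>
    intro x
    rw [mem_P, mem_P, mem_P]
    constructor
    · intro h
      constructor
      · intro β hβ
        obtain ⟨y, hy, rfl⟩ := h β hβ
        exact ⟨y.1, ((ih β hβ y).1 hy).1, rfl⟩
      · intro β hβ
        obtain ⟨y, hy, rfl⟩ := h β hβ
        exact ⟨y.2, ((ih β hβ y).1 hy).2, rfl⟩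
    · rintro ⟨h1, h2⟩ β hβ
      obtain ⟨y, hy, hyx⟩ := h1 β hβ
      obtain ⟨z, hz, hzx⟩ := h2 β hβ
      exact ⟨(y, z), (ih β hβ _).2 ⟨hy, hz⟩, Prod.ext hyx hzx⟩

lemma relIndex_prod (A C : AddSubgroup G) (B' E : AddSubgroup H) :
    (A.prod B').relIndex (C.prod E) = A.relIndex C * B'.relIndex E := by
  have h := AddSubgroup.relIndex_comap (A.prod B')
    (AddMonoidHom.prodMap C.subtype E.subtype) ⊤
  have h1 : (⊤ : AddSubgroup (C × E)).map (AddMonoidHom.prodMap C.subtype E.subtype) =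
      C.prod E := by
    ext x
    rw [AddSubgroup.mem_map, AddSubgroup.mem_prod]
    constructor
    · rintro ⟨y, -, rfl⟩
      exact ⟨y.1.2, y.2.2⟩
    · rintro ⟨h1, h2⟩
      exact ⟨(⟨x.1, h1⟩, ⟨x.2, h2⟩), trivial, rfl⟩
  rw [h1, AddSubgroup.relIndex_top_right] at h
  rw [← h]
  have h2 : (A.prod B').comap (AddMonoidHom.prodMap C.subtype E.subtype) =
      (A.addSubgroupOf C).prod (B'.addSubgroupOf E) := by
    ext x
    rfl
  rw [h2, AddSubgroup.index_prod]
  rfl

lemma inv_prod (α : Ordinal.{0}) : inv (G × H) p α = inv G p α * inv H p α := by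
  have h1 : P (G × H) p (α + 1) = (P G p (α + 1)).prod (P H p (α + 1)) := by
    ext x; exact mem_P_prod _ x
  have h2 : D (G × H) p α = (D G p α).prod (D H p α) := by
    ext x
    rw [mem_D, mem_P_prod, mem_P_prod, AddSubgroup.mem_prod, mem_D, mem_D]
    constructor
    · rintro ⟨⟨h1, h2⟩, h3, h4⟩; exact ⟨⟨h1, h3⟩, h2, h4⟩
    · rintro ⟨⟨h1, h3⟩, h2, h4⟩; exact ⟨⟨h1, h2⟩, h3, h4⟩
  unfold inv
  rw [h1, h2, relIndex_prod]

lemma Sinf_prod : Nat.card (Sinf (G × H) p) = Nat.card (Sinf G p) * Nat.card (Sinf H p) := by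
  rw [← Nat.card_prod]
  refine Nat.card_congr
    { toFun := fun x => (⟨x.1.1, ?_⟩, ⟨x.1.2, ?_⟩)
      invFun := fun x => ⟨(x.1.1, x.2.1), ?_⟩
      left_inv := fun x => rfl
      right_inv := fun x => rfl }
  · have h := mem_Sinf.1 x.2
    exact mem_Sinf.2 ⟨mem_Pinf.2 fun α => ((mem_P_prod α _).1 (mem_Pinf.1 h.1 α)).1,
      congrArg Prod.fst h.2⟩
  · have h := mem_Sinf.1 x.2
    exact mem_Sinf.2 ⟨mem_Pinf.2 fun α => ((mem_P_prod α _).1 (mem_Pinf.1 h.1 α)).2,
      congrArg Prod.snd h.2⟩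
  · have h1 := mem_Sinf.1 x.1.2
    have h2 := mem_Sinf.1 x.2.2
    exact mem_Sinf.2 ⟨mem_Pinf.2 fun α => (mem_P_prod α _).2
      ⟨mem_Pinf.1 h1.1 α, mem_Pinf.1 h2.1 α⟩, Prod.ext h1.2 h2.2⟩

end

end H674.Ulm
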