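import Mathlib
import Pool.Agent.H674R2.UU1

/-!
Back-and-forth proof of the uniqueness theorem for countable torsion abelian groups.
-/

namespace H674.Ulm

open Ordinal

section
variable {G H : Type} [AddCommGroup G] [AddCommGroup H]

/-- Height-preserving relations. -/
def GoodR (R : AddSubgroup (G × H)) : Prop :=
  ∀ q ∈ R, (q.1 = 0 ↔ q.2 = 0) ∧ ∀ p : ℕ, p.Prime → ∀ α, (q.1 ∈ P G p α ↔ q.2 ∈ P H p α)

lemma sub_mem_iff' (K : AddSubgroup G) {x y : G} (hy : y ∈ K) : x - y ∈ K ↔ x ∈ K :=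
  ⟨fun h => by simpa using K.add_mem h hy, fun h => K.sub_mem h hy⟩

/-- Splitting off the `p`-part of a torsion element. -/
lemma exists_split {p : ℕ} (hp : p.Prime) {x : G} (hx : ∃ n : ℕ, 0 < n ∧ n • x = 0) :
    ∃ c : ℤ, (∃ k : ℕ, p ^ k • (x - (c * p) • x) = 0) ∧
      ∃ m : ℕ, Nat.Coprime p m ∧ m • ((c * p) • x) = 0 := by
  obtain ⟨n, hn, hnx⟩ := hx
  obtain ⟨k, m, hm, hnm⟩ := Nat.exists_eq_pow_mul_and_not_dvd (n := n) hn.ne' p hp.ne_one
  have hcop : Nat.Coprime p m := (Nat.Prime.coprime_iff_not_dvd hp).2 hm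
  have hcop2 : Nat.Coprime (p ^ (k + 1)) m := Nat.Coprime.pow_left _ hcop
  obtain ⟨u, v, huv⟩ : ∃ u v : ℤ, ((p ^ (k + 1) : ℕ) : ℤ) * u + m * v = 1 := by
    have := Nat.gcd_eq_gcd_ab (p ^ (k + 1)) m
    rw [hcop2] at this
    exact ⟨_, _, by exact_mod_cast this.symm⟩
  refine ⟨u * p ^ k, ⟨k, ?_⟩, m, hcop, ?_⟩
  · have h1 : x - (u * p ^ k * p) • x = ((m : ℤ) * v) • x := by
      have : (1 : ℤ) - u * p ^ k * p = m * v := by
        have : ((p ^ (k + 1) : ℕ) : ℤ) * u = u * p ^ k * p := by push_cast; ring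
        linarith
      rw [← this, sub_smul, one_smul]
    rw [h1, ← natCast_zsmul, ← mul_smul]
    have : ((p ^ k : ℕ) : ℤ) * ((m : ℤ) * v) = v * (n : ℤ) := by rw [hnm]; push_cast; ring
    rw [this, mul_smul, natCast_zsmul, hnx, smul_zero]
  · rw [← natCast_zsmul, ← mul_smul]
    have : (m : ℤ) * (u * p ^ k * p) = (u * p) * (n : ℤ) := by rw [hnm]; push_cast; ring
    rw [this, mul_smul, natCast_zsmul, hnx, smul_zero]

lemma mem_P_of_pow {p q : ℕ} (hp : p.Prime) (hq : q.Prime) (hpq : p ≠ q) {x : G} {k : ℕ}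
    (hx : p ^ k • x = 0) (α : Ordinal.{0}) : x ∈ P G q α :=
  mem_P_coprime (m := p ^ k) (Nat.Coprime.pow_right k ((Nat.coprime_primes hq hp).2 hpq.symm)) α x hx

/-- Choice of a proper representative. -/
lemma exists_proper {p : ℕ} (hp : p.Prime) (hG : ∀ x : G, ∃ n : ℕ, 0 < n ∧ n • x = 0)
    {A : AddSubgroup G} (hA : (A : Set G).Finite) {x : G} (hxA : x ∉ A) (hpx : p • x ∈ A) :
    ∃ x₀ : G, x₀ - x ∈ A ∧ x₀ ∉ A ∧ p • x₀ ∈ A ∧ (∃ k : ℕ, p ^ k • x₀ = 0) ∧
      (∀ a ∈ A, rk p (x₀ + a) ≤ rk p x₀) ∧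
      (∀ a ∈ A, rk p (x₀ + a) = rk p x₀ → rk p (p • (x₀ + a)) ≤ rk p (p • x₀)) := by
  obtain ⟨a₁, ha₁, h₁⟩ := hA.exists_maximalFor (fun a => toLex (rk p (x + a), rk p (p • (x + a)))) _
    ⟨0, A.zero_mem⟩
  set x₁ := x + a₁ with hx₁
  have hx₁A : x₁ ∉ A := by
    intro h
    apply hxA
    have := A.sub_mem h ha₁
    rw [hx₁] at this
    simpa using this
  have hpx₁ : p • x₁ ∈ A := by
    rw [hx₁, smul_add]
    exact A.add_mem hpx (A.nsmul_mem ha₁ p)
  obtain ⟨c, ⟨k, hk⟩, m, hm, hmx⟩ := exists_split hp (hG x₁)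
  set d := (c * p) • x₁ with hd
  have hdA : d ∈ A := by
    rw [hd, mul_smul, natCast_zsmul]
    exact A.zsmul_mem hpx₁ c
  have hdP : ∀ α, d ∈ P G p α := fun α => mem_P_coprime hm α d hmx
  have hcmp : ∀ a ∈ A, toLex (rk p (x₁ + a), rk p (p • (x₁ + a))) ≤
      toLex (rk p x₁, rk p (p • x₁)) := by
    intro a ha
    rcases le_total (toLex (rk p (x₁ + a), rk p (p • (x₁ + a))))
      (toLex (rk p x₁, rk p (p • x₁))) with h | h
    · exact h
    · have := h₁ (j := a₁ + a) (A.add_mem ha₁ ha)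
      simp only [← add_assoc, ← hx₁] at this
      exact this h
  have hr : ∀ a, rk p (x₁ - d + a) = rk p (x₁ + a) := by
    intro a
    refine rk_congr fun α => ?_
    have : x₁ - d + a = (x₁ + a) - d := by abel
    rw [this]
    exact sub_mem_iff' (P G p α) (hdP α)
  have hrp : ∀ a, rk p (p • (x₁ - d + a)) = rk p (p • (x₁ + a)) := by
    intro a
    refine rk_congr fun α => ?_
    have : p • (x₁ - d + a) = p • (x₁ + a) - p • d := by
      rw [← smul_sub]; congr 1; abel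
    rw [this]
    exact sub_mem_iff' (P G p α) (AddSubgroup.nsmul_mem _ (hdP α) p)
  have hr0 := hr 0
  have hrp0 := hrp 0
  rw [add_zero, add_zero] at hr0 hrp0
  refine ⟨x₁ - d, ?_, ?_, ?_, ⟨k, hk⟩, ?_, ?_⟩
  · have : x₁ - d - x = a₁ - d := by rw [hx₁]; abel
    rw [this]
    exact A.sub_mem ha₁ hdA
  · intro h
    apply hx₁A
    have := A.add_mem h hdA
    simpa using this
  · rw [smul_sub]
    exact A.sub_mem hpx₁ (A.nsmul_mem hdA p)
  · intro a ha
    rw [hr, hr0]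
    have := hcmp a ha
    rw [Prod.Lex.toLex_le_toLex] at this
    rcases this with h | h
    · exact h.le
    · exact h.1.le
  · intro a ha he
    rw [hr, hr0] at he
    rw [hrp, hrp0]
    have := hcmp a ha
    rw [Prod.Lex.toLex_le_toLex] at this
    rcases this with h | h
    · exact absurd he h.ne
    · exact h.2

/-- Counting for finite heights. -/
lemma count_fin {p : ℕ} (hp : p.Prime) {R : AddSubgroup (G × H)} (hR : (R : Set (G × H)).Finite)
    (hgood : GoodR R) {α : Ordinal.{0}} (hinv : inv G p α = inv H p α)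
    {x : G} (hx : x ∈ D G p α) (hxA : ∀ q ∈ R, x + q.1 ∉ P G p (α + 1)) :
    ∃ y ∈ D H p α, ∀ q ∈ R, y + q.2 ∉ P H p (α + 1) := by
  by_contra hcon
  push Not at hcon
  set R' : AddSubgroup (G × H) := R ⊓ (D G p α).comap (AddMonoidHom.fst G H) with hR'
  have hR'2 : R' = R ⊓ (D H p α).comap (AddMonoidHom.snd G H) := by
    ext q
    simp only [hR', AddSubgroup.mem_inf, AddSubgroup.mem_comap, AddMonoidHom.coe_fst,
      AddMonoidHom.coe_snd, mem_D]
    constructor
    · rintro ⟨h1, h2, h3⟩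
      exact ⟨h1, ((hgood q h1).2 p hp _).1 h2, ((hgood (p • q) (R.nsmul_mem h1 p)).2 p hp _).1 h3⟩
    · rintro ⟨h1, h2, h3⟩
      exact ⟨h1, ((hgood q h1).2 p hp _).2 h2, ((hgood (p • q) (R.nsmul_mem h1 p)).2 p hp _).2 h3⟩
  have hfin : (R' : Set (G × H)).Finite := hR.subset fun q hq => hq.1
  have hPP : (P G p (α + 1)).comap (AddMonoidHom.fst G H) ⊓ R' =
      (P H p (α + 1)).comap (AddMonoidHom.snd G H) ⊓ R' := by
    ext q
    simp only [AddSubgroup.mem_inf, AddSubgroup.mem_comap, AddMonoidHom.coe_fst,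
      AddMonoidHom.coe_snd]
    constructor
    · rintro ⟨h1, h2⟩
      exact ⟨((hgood q h2.1).2 p hp _).1 h1, h2⟩
    · rintro ⟨h1, h2⟩
      exact ⟨((hgood q h2.1).2 p hp _).2 h1, h2⟩
  have e1 : (P G p (α + 1)).relIndex (R'.map (AddMonoidHom.fst G H)) =
      (P H p (α + 1)).relIndex (R'.map (AddMonoidHom.snd G H)) := by
    rw [← AddSubgroup.relIndex_comap, ← AddSubgroup.relIndex_comap,
      ← AddSubgroup.inf_relIndex_right, hPP, AddSubgroup.inf_relIndex_right]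
  have hD : D H p α = R'.map (AddMonoidHom.snd G H) ⊔ P H p (α + 1) := by
    apply le_antisymm
    · intro y hy
      obtain ⟨q, hq, hyq⟩ := hcon (-y) (AddSubgroup.neg_mem _ hy)
      refine AddSubgroup.mem_sup.2 ⟨q.2, ?_, y - q.2, ?_, by abel⟩
      · rw [hR'2]
        refine AddSubgroup.mem_map.2 ⟨q, ⟨hq, ?_⟩, rfl⟩
        have : q.2 = y + (-y + q.2) := by abel
        show q.2 ∈ D H p α
        rw [this]
        exact AddSubgroup.add_mem _ hy (P_le_D _ hyq)
      · have : y - q.2 = -(-y + q.2) := by abel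
        rw [this]
        exact AddSubgroup.neg_mem _ hyq
    · refine sup_le ?_ (P_le_D _)
      rw [hR'2]
      rintro _ ⟨q, hq, rfl⟩
      exact hq.2
  have e2 : inv H p α = (P H p (α + 1)).relIndex (R'.map (AddMonoidHom.snd G H)) := by
    unfold inv
    rw [hD, AddSubgroup.relIndex_sup_right]
  have hne : (P H p (α + 1)).relIndex (R'.map (AddMonoidHom.snd G H)) ≠ 0 := by
    have : Finite (R'.map (AddMonoidHom.snd G H)) := (hfin.image _).to_subtype
    exact AddSubgroup.FiniteIndex.index_ne_zero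
  have hle : R'.map (AddMonoidHom.fst G H) ⊔ P G p (α + 1) ≤ D G p α := by
    refine sup_le ?_ (P_le_D _)
    rintro _ ⟨q, hq, rfl⟩
    exact hq.2
  have e3 := AddSubgroup.relIndex_mul_relIndex _ _ _
    (le_sup_right : P G p (α + 1) ≤ R'.map (AddMonoidHom.fst G H) ⊔ P G p (α + 1)) hle
  rw [AddSubgroup.relIndex_sup_right] at e3
  have e4 : (P G p (α + 1)).relIndex (D G p α) = inv G p α := rfl
  rw [e4, hinv, e2, e1] at e3
  have e5 : (R'.map (AddMonoidHom.fst G H) ⊔ P G p (α + 1)).relIndex (D G p α) = 1 := by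
    have := Nat.eq_of_mul_eq_mul_left (Nat.pos_of_ne_zero hne) (e3.trans (mul_one _).symm)
    exact this
  rw [AddSubgroup.relIndex_eq_one] at e5
  obtain ⟨_, ⟨q, hq, rfl⟩, u, hu, hxu⟩ := AddSubgroup.mem_sup.1 (e5 hx)
  apply hxA (-q) (R.neg_mem hq.1)
  have : x + (-q).1 = u := by
    rw [← hxu]
    show (AddMonoidHom.fst G H) q + u + -q.1 = u
    simp
  rw [this]
  exact hu

/-- Counting for infinite heights. -/
lemma count_inf {p : ℕ} (hp : p.Prime) {R : AddSubgroup (G × H)} (hR : (R : Set (G × H)).Finite)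
    (hgood : GoodR R) (hinv : Nat.card (Sinf G p) = Nat.card (Sinf H p))
    {x : G} (hx : x ∈ Sinf G p) (hxA : ∀ q ∈ R, q.1 ≠ x) :
    ∃ y ∈ Sinf H p, ∀ q ∈ R, q.2 ≠ y := by
  by_contra hcon
  push Not at hcon
  have hiff : ∀ q ∈ R, q.1 ∈ Sinf G p ↔ q.2 ∈ Sinf H p := by
    intro q hq
    rw [mem_Sinf, mem_Sinf, mem_Pinf, mem_Pinf]
    exact and_congr (forall_congr' fun α => (hgood q hq).2 p hp α)
      (hgood (p • q) (R.nsmul_mem hq p)).1
  set T : Set (G × H) := {q | q ∈ R ∧ q.1 ∈ Sinf G p} with hT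
  have hTfin : T.Finite := hR.subset fun q hq => hq.1
  have h2 : Prod.snd '' T = (Sinf H p : Set H) := by
    ext y
    constructor
    · rintro ⟨q, hq, rfl⟩
      exact (hiff q hq.1).1 hq.2
    · intro hy
      obtain ⟨q, hq, rfl⟩ := hcon y hy
      exact ⟨q, ⟨hq, (hiff q hq).2 hy⟩, rfl⟩
  have inj1 : Set.InjOn Prod.fst T := by
    intro q hq q' hq' h
    have h3 := (hgood (q - q') (R.sub_mem hq.1 hq'.1)).1.1 (by
      show q.1 - q'.1 = 0
      exact sub_eq_zero.2 h)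
    exact Prod.ext h (sub_eq_zero.1 h3)
  have inj2 : Set.InjOn Prod.snd T := by
    intro q hq q' hq' h
    have h3 := (hgood (q - q') (R.sub_mem hq.1 hq'.1)).1.2 (by
      show q.2 - q'.2 = 0
      exact sub_eq_zero.2 h)
    exact Prod.ext (sub_eq_zero.1 h3) h
  have c2 : (Sinf H p : Set H).ncard = T.ncard := by rw [← h2, inj2.ncard_image]
  have c1 : (Prod.fst '' T).ncard = T.ncard := inj1.ncard_image
  have c3 : (Sinf G p : Set G).ncard = (Sinf H p : Set H).ncard := by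
    rw [← Nat.card_coe_set_eq, ← Nat.card_coe_set_eq]
    exact hinv
  have hpos : 0 < (Sinf H p : Set H).ncard := by
    rw [Set.ncard_pos (h2 ▸ hTfin.image _)]
    exact ⟨0, (Sinf H p).zero_mem⟩
  have hGfin : (Sinf G p : Set G).Finite := Set.finite_of_ncard_pos (c3 ▸ hpos)
  have hsub : Prod.fst '' T ⊆ (Sinf G p : Set G) := by
    rintro _ ⟨q, hq, rfl⟩
    exact hq.2
  have heq := Set.eq_of_subset_of_ncard_le hsub (by rw [c1, c3, c2]) hGfin
  have : x ∈ Prod.fst '' T := by rw [heq]; exact hx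
  obtain ⟨q, hq, rfl⟩ := this
  exact hxA q hq.1 rfl

/-- The partner of a proper element. -/
lemma exists_partner {p : ℕ} (hp : p.Prime) {R : AddSubgroup (G × H)}
    (hR : (R : Set (G × H)).Finite)
    (hgood : GoodR R) (hinv : ∀ α, inv G p α = inv H p α)
    (hinf : Nat.card (Sinf G p) = Nat.card (Sinf H p))
    {x₀ : G} {z : H} (hx₀A : ∀ q ∈ R, q.1 ≠ x₀) (hz : (p • x₀, z) ∈ R)
    (h1 : ∀ q ∈ R, rk p (x₀ + q.1) ≤ rk p x₀)
    (h2 : ∀ q ∈ R, rk p (x₀ + q.1) = rk p x₀ → rk p (p • (x₀ + q.1)) ≤ rk p (p • x₀)) :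
    ∃ y : H, p • y = z ∧ (∀ q ∈ R, q.2 ≠ y) ∧ (∀ α, x₀ ∈ P G p α ↔ y ∈ P H p α) ∧
      ∀ q ∈ R, ∀ α, y + q.2 ∈ P H p α → y ∈ P H p α := by
  cases hr : rk p x₀ with
  | top =>
    have hx₀ : ∀ α, x₀ ∈ P G p α := fun α => le_rk.1 (by rw [hr]; exact le_top)
    have hzinf : z ∈ Pinf H p := mem_Pinf.2 fun α =>
      ((hgood _ hz).2 p hp α).1 (AddSubgroup.nsmul_mem _ (hx₀ α) p)
    obtain ⟨w, hw, hwz⟩ := Pinf_div hzinf
    by_cases hwB : ∃ q ∈ R, q.2 = w
    · obtain ⟨q, hq, rfl⟩ := hwB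
      have hq1 : q.1 ∈ Pinf G p := mem_Pinf.2 fun α =>
        ((hgood q hq).2 p hp α).2 (mem_Pinf.1 hw α)
      have h3 : p • q.1 = p • x₀ := by
        have h4 := R.sub_mem (R.nsmul_mem hq p) hz
        have h5 := (hgood _ h4).1.2 (by
          show p • q.2 - z = 0
          exact sub_eq_zero.2 hwz)
        exact sub_eq_zero.1 h5
      have h4 : x₀ - q.1 ∈ Sinf G p := by
        refine mem_Sinf.2 ⟨mem_Pinf.2 fun α => AddSubgroup.sub_mem _ (hx₀ α) (mem_Pinf.1 hq1 α), ?_⟩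
        rw [smul_sub, h3, sub_eq_zero.2 rfl]
      obtain ⟨y₁, hy₁, hy₁B⟩ := count_inf hp hR hgood hinf h4 (by
        intro q' hq' he
        apply hx₀A (q' + q) (R.add_mem hq' hq)
        show q'.1 + q.1 = x₀
        rw [he]; abel)
      have hy : q.2 + y₁ ∈ Pinf H p := AddSubgroup.add_mem _ hw (mem_Sinf.1 hy₁).1
      refine ⟨q.2 + y₁, ?_, ?_, ?_, ?_⟩
      · rw [smul_add, hwz, (mem_Sinf.1 hy₁).2, add_zero]
      · intro q' hq' he
        apply hy₁B (q' - q) (R.sub_mem hq' hq)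
        show q'.2 - q.2 = y₁
        rw [he]; abel
      · intro α
        exact ⟨fun _ => mem_Pinf.1 hy α, fun _ => hx₀ α⟩
      · intro _ _ α _
        exact mem_Pinf.1 hy α
    · push Not at hwB
      refine ⟨w, hwz, hwB, ?_, ?_⟩
      · intro α
        exact ⟨fun _ => mem_Pinf.1 hw α, fun _ => hx₀ α⟩
      · intro _ _ α _
        exact mem_Pinf.1 hw α
  | coe α =>
    have hxα : x₀ ∈ P G p α := le_rk.1 (by rw [hr])
    have hxα1 : x₀ ∉ P G p (α + 1) := by
      intro h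
      have h3 := le_rk.2 h
      rw [hr, WithTop.coe_le_coe] at h3
      exact absurd h3 (not_le_of_gt (Order.lt_add_one_iff.2 le_rfl))
    have hxlt : ∀ β, x₀ ∈ P G p β ↔ β ≤ α := by
      intro β
      rw [← le_rk, hr, WithTop.coe_le_coe]
    have hpx : p • x₀ ∈ P G p (α + 1) := smul_mem_succ hxα
    have hz1 : z ∈ P H p (α + 1) := ((hgood _ hz).2 p hp _).1 hpx
    have hfinish : ∀ y : H, p • y = z → y ∈ P H p α →
        (∀ q ∈ R, y + q.2 ∉ P H p (α + 1)) → p • y = z ∧ (∀ q ∈ R, q.2 ≠ y) ∧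
        (∀ α, x₀ ∈ P G p α ↔ y ∈ P H p α) ∧
        ∀ q ∈ R, ∀ α, y + q.2 ∈ P H p α → y ∈ P H p α := by
      intro y hy1 hy2 hy3
      have hy4 : y ∉ P H p (α + 1) := by
        have := hy3 0 R.zero_mem
        simpa using this
      refine ⟨hy1, ?_, ?_, ?_⟩
      · rintro q hq rfl
        apply hy3 (-q) (R.neg_mem hq)
        show q.2 + -q.2 ∈ _
        rw [add_neg_cancel]
        exact AddSubgroup.zero_mem _
      · intro β
        rw [hxlt]
        constructor
        · intro h; exact P_anti h hy2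
        · intro h
          by_contra hlt
          push Not at hlt
          exact hy4 (P_anti (Order.add_one_le_of_lt hlt) h)
      · intro q hq β h
        by_cases hβ : β ≤ α
        · exact P_anti hβ hy2
        · push Not at hβ
          exact absurd (P_anti (Order.add_one_le_of_lt hβ) h) (hy3 q hq)
    by_cases hpx2 : p • x₀ ∈ P G p (α + 2)
    · have hxD : x₀ ∈ D G p α := mem_D.2 ⟨hxα, hpx2⟩
      obtain ⟨y₁, hy₁, hy₁B⟩ := count_fin hp hR hgood (hinv α) hxD (by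
        intro q hq h
        apply hxα1
        exact le_rk.1 ((le_rk.2 h).trans (h1 q hq)))
      have e2 : α + 2 = α + 1 + 1 := by rw [add_assoc, one_add_one_eq_two]
      have hz2 : z ∈ P H p (α + 1 + 1) := e2 ▸ ((hgood _ hz).2 p hp _).1 hpx2
      obtain ⟨w, hw, hwz⟩ := mem_P_succ.1 hz2
      have hy₁2 : p • y₁ ∈ P H p (α + 1 + 1) := e2 ▸ (mem_D.1 hy₁).2
      obtain ⟨u, hu, huy⟩ := mem_P_succ.1 hy₁2
      refine ⟨y₁ - u + w, hfinish _ ?_ ?_ ?_⟩
      · rw [smul_add, smul_sub, huy, hwz]; abel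
      · exact AddSubgroup.add_mem _ (AddSubgroup.sub_mem _ (mem_D.1 hy₁).1
          (P_anti (le_of_lt (Order.lt_add_one_iff.2 le_rfl)) hu))
          (P_anti (le_of_lt (Order.lt_add_one_iff.2 le_rfl)) hw)
      · intro q hq h
        apply hy₁B q hq
        have : y₁ + q.2 = (y₁ - u + w + q.2) - (w - u) := by abel
        rw [this]
        exact AddSubgroup.sub_mem _ h (AddSubgroup.sub_mem _ hw hu)
    · have hz2 : z ∉ P H p (α + 2) := fun h => hpx2 (((hgood _ hz).2 p hp _).2 h)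
      have e2 : α + 2 = α + 1 + 1 := by rw [add_assoc, one_add_one_eq_two]
      obtain ⟨y, hy, hyz⟩ := mem_P_succ.1 hz1
      refine ⟨y, hfinish y hyz hy ?_⟩
      intro q hq h
      have hq2 : q.2 ∈ P H p α := by
        have : q.2 = (y + q.2) - y := by abel
        rw [this]
        exact AddSubgroup.sub_mem _ (P_anti (le_of_lt (Order.lt_add_one_iff.2 le_rfl)) h) hy
      have hq1 : q.1 ∈ P G p α := ((hgood q hq).2 p hp α).2 hq2
      have h3 : p • (y + q.2) ∈ P H p (α + 2) := by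
        rw [e2]; exact smul_mem_succ h
      have h4 : (p • x₀, z) + p • q ∈ R := R.add_mem hz (R.nsmul_mem hq p)
      have h5 : p • (x₀ + q.1) ∈ P G p (α + 2) := by
        have := ((hgood _ h4).2 p hp (α + 2)).2 (by
          show z + p • q.2 ∈ _
          rw [← hyz, ← smul_add]
          exact h3)
        rw [smul_add]
        exact this
      have h6 : rk p (x₀ + q.1) = rk p x₀ := by
        apply le_antisymm (h1 q hq)
        rw [hr]
        exact le_rk.2 (AddSubgroup.add_mem _ hxα hq1)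
      have h7 := h2 q hq h6
      exact hpx2 (le_rk.1 ((le_rk.2 h5).trans h7))

end

end H674.Ulm
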