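import Mathlib
import Pool.Agent.H674R2.UU2

/-!
The uniqueness theorem for countable torsion abelian groups and two test problems of Kaplansky.
-/

namespace H674.Ulm

open Ordinal

section
variable {G H : Type} [AddCommGroup G] [AddCommGroup H]

/-- Torsion groups. -/
def Tors (G : Type) [AddCommGroup G] : Prop := ∀ x : G, ∃ n : ℕ, 0 < n ∧ n • x = 0

/-- The assumptions of the uniqueness theorem. -/
def SameInv (G H : Type) [AddCommGroup G] [AddCommGroup H] : Prop :=
  ∀ p : ℕ, p.Prime → (∀ α, inv G p α = inv H p α) ∧ Nat.card (Sinf G p) = Nat.card (Sinf H p)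

lemma extend_prime {p : ℕ} (hp : p.Prime) (hG : Tors G) (hS : SameInv G H)
    {R : AddSubgroup (G × H)} (hR : (R : Set (G × H)).Finite) (hgood : GoodR R)
    {x : G} {t : H} (hx : (p • x, t) ∈ R) :
    ∃ R' : AddSubgroup (G × H), R ≤ R' ∧ (R' : Set (G × H)).Finite ∧ GoodR R' ∧
      ∃ y, (x, y) ∈ R' := by
  by_cases hxA : ∃ y, (x, y) ∈ R
  · exact ⟨R, le_rfl, hR, hgood, hxA⟩
  set A : AddSubgroup G := R.map (AddMonoidHom.fst G H) with hA
  have memA : ∀ a : G, a ∈ A ↔ ∃ q ∈ R, q.1 = a := fun a => AddSubgroup.mem_map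
  have hAfin : (A : Set G).Finite := hR.image _
  have hxA' : x ∉ A := by
    rw [memA]
    rintro ⟨q, hq, rfl⟩
    exact hxA ⟨q.2, hq⟩
  have hpxA : p • x ∈ A := (memA _).2 ⟨_, hx, rfl⟩
  obtain ⟨x₀, hx₀x, hx₀A, hpx₀, ⟨k, hk⟩, h1, h2⟩ := exists_proper hp hG hAfin hxA' hpxA
  obtain ⟨⟨_, z⟩, hz, rfl⟩ := (memA _).1 hpx₀
  obtain ⟨y, hyz, hyB, hxy, hyprop⟩ := exists_partner hp hR hgood (hS p hp).1 (hS p hp).2
    (x₀ := x₀) (z := z)
    (fun q hq he => hx₀A ((memA _).2 ⟨q, hq, he⟩)) hz (fun q hq => h1 _ ((memA _).2 ⟨q, hq, rfl⟩))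
    (fun q hq => h2 _ ((memA _).2 ⟨q, hq, rfl⟩))
  have hk' : p ^ (k + 1) • x₀ = 0 := by
    rw [pow_succ', mul_smul, hk, smul_zero]
  have hy' : p ^ (k + 1) • y = 0 := by
    have h3 := R.nsmul_mem hz (p ^ k)
    have h4 := (hgood _ h3).1.1 (by
      show p ^ k • p • x₀ = 0
      rw [← mul_smul, ← pow_succ, hk'])
    have h5 : p ^ k • z = 0 := h4
    rw [pow_succ, mul_smul, hyz, h5]
  have hpxy : p • ((x₀, y) : G × H) ∈ R := by
    have : p • ((x₀, y) : G × H) = (p • x₀, z) := Prod.ext rfl hyz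
    rw [this]; exact hz
  have hx₀prop : ∀ q ∈ R, ∀ α, x₀ + q.1 ∈ P G p α → x₀ ∈ P G p α := by
    intro q hq α h
    exact le_rk.1 ((le_rk.2 h).trans (h1 _ ((memA _).2 ⟨q, hq, rfl⟩)))
  -- the extended relation
  set R' : AddSubgroup (G × H) := R ⊔ AddSubgroup.zmultiples ((x₀, y) : G × H) with hR'
  have memR' : ∀ q : G × H, q ∈ R' ↔ ∃ r ∈ R, ∃ n : ℤ, r + n • ((x₀, y) : G × H) = q := by
    intro q
    rw [hR', AddSubgroup.mem_sup]
    constructor
    · rintro ⟨r, hr, s, hs, rfl⟩
      obtain ⟨n, rfl⟩ := AddSubgroup.mem_zmultiples_iff.1 hs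
      exact ⟨r, hr, n, rfl⟩
    · rintro ⟨r, hr, n, rfl⟩
      exact ⟨r, hr, _, AddSubgroup.mem_zmultiples_iff.2 ⟨n, rfl⟩, rfl⟩
  have hdvd : ∀ n : ℤ, (p : ℤ) ∣ n → n • ((x₀, y) : G × H) ∈ R := by
    rintro n ⟨m, rfl⟩
    rw [mul_comm, mul_smul, natCast_zsmul]
    exact R.zsmul_mem hpxy m
  refine ⟨R', le_sup_left, ?_, ?_, ?_⟩
  · -- finiteness
    refine Set.Finite.subset (((hR.prod (Set.finite_Ico (0 : ℤ) p)).image
      (fun q : (G × H) × ℤ => q.1 + q.2 • ((x₀, y) : G × H)))) ?_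
    intro q hq
    obtain ⟨r, hr, n, rfl⟩ := (memR' q).1 hq
    have hp0 : (0 : ℤ) < p := by exact_mod_cast hp.pos
    refine ⟨(r + (p * (n / p)) • ((x₀, y) : G × H), n % p), ⟨?_, ?_⟩, ?_⟩
    · exact R.add_mem hr (hdvd _ ⟨_, rfl⟩)
    · exact ⟨Int.emod_nonneg _ hp0.ne', Int.emod_lt_of_pos _ hp0⟩
    · show r + (p * (n / p)) • ((x₀, y) : G × H) + (n % p) • ((x₀, y) : G × H) = _
      rw [add_assoc, ← add_smul, Int.mul_ediv_add_emod]
  · -- goodness
    intro q hq
    obtain ⟨r, hr, n, rfl⟩ := (memR' q).1 hq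
    by_cases hn : (p : ℤ) ∣ n
    · exact hgood _ (R.add_mem hr (hdvd n hn))
    · obtain ⟨u, v, huv⟩ : ∃ u v : ℤ, u * n + v * p = 1 := by
        have hpi : Prime (p : ℤ) := Nat.prime_iff_prime_int.1 hp
        have : IsCoprime n (p : ℤ) :=
          ((Irreducible.coprime_iff_not_dvd hpi.irreducible).2 hn).symm
        exact this
      have hsplit : u • (r + n • ((x₀, y) : G × H)) =
          ((x₀, y) : G × H) + (u • r - v • p • ((x₀, y) : G × H)) := by
        have h3 : (u * n + v * p : ℤ) • ((x₀, y) : G × H) = ((x₀, y) : G × H) := by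
          rw [huv, one_smul]
        rw [add_smul, mul_smul, mul_smul, natCast_zsmul] at h3
        rw [smul_add]
        nth_rewrite 2 [← h3]
        abel
      set w : G × H := u • r - v • p • ((x₀, y) : G × H) with hw
      have hwR : w ∈ R := R.sub_mem (R.zsmul_mem hr u) (R.zsmul_mem hpxy v)
      refine ⟨?_, ?_⟩
      · constructor
        · intro h
          exfalso
          apply hx₀A
          refine (memA _).2 ⟨-w, R.neg_mem hwR, ?_⟩
          have h3 := congrArg Prod.fst hsplit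
          have h4 : (u • (r + n • ((x₀, y) : G × H))).1 = 0 := by
            show u • (r + n • ((x₀, y) : G × H)).1 = 0
            rw [h, smul_zero]
          rw [h4] at h3
          show -w.1 = x₀
          have h5 : 0 = x₀ + w.1 := h3
          exact (eq_neg_of_add_eq_zero_left h5.symm).symm
        · intro h
          exfalso
          apply hyB (-w) (R.neg_mem hwR)
          have h3 := congrArg Prod.snd hsplit
          have h4 : (u • (r + n • ((x₀, y) : G × H))).2 = 0 := by
            show u • (r + n • ((x₀, y) : G × H)).2 = 0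
            rw [h, smul_zero]
          rw [h4] at h3
          show -w.2 = y
          have h5 : 0 = y + w.2 := h3
          exact (eq_neg_of_add_eq_zero_left h5.symm).symm
      · intro q' hq' α
        by_cases hqp : p = q'
        · subst hqp
          have e1 : (r + n • ((x₀, y) : G × H)).1 ∈ P G p α ↔ (x₀ ∈ P G p α ∧ r.1 ∈ P G p α) := by
            constructor
            · intro h
              have h3 : x₀ + w.1 ∈ P G p α := by
                have h4 := AddSubgroup.zsmul_mem _ h u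
                have h5 := congrArg Prod.fst hsplit
                have h6 : (u • (r + n • ((x₀, y) : G × H))).1 = x₀ + w.1 := h5
                rw [← h6]; exact h4
              have h7 := hx₀prop w hwR α h3
              refine ⟨h7, ?_⟩
              have h8 : r.1 = (r + n • ((x₀, y) : G × H)).1 - n • x₀ := by
                show r.1 = r.1 + n • x₀ - n • x₀
                abel
              rw [h8]
              exact AddSubgroup.sub_mem _ h (AddSubgroup.zsmul_mem _ h7 n)
            · rintro ⟨h3, h4⟩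
              exact AddSubgroup.add_mem _ h4 (AddSubgroup.zsmul_mem _ h3 n)
          have e2 : (r + n • ((x₀, y) : G × H)).2 ∈ P H p α ↔ (y ∈ P H p α ∧ r.2 ∈ P H p α) := by
            constructor
            · intro h
              have h3 : y + w.2 ∈ P H p α := by
                have h4 := AddSubgroup.zsmul_mem _ h u
                have h5 := congrArg Prod.snd hsplit
                have h6 : (u • (r + n • ((x₀, y) : G × H))).2 = y + w.2 := h5
                rw [← h6]; exact h4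
              have h7 := hyprop w hwR α h3
              refine ⟨h7, ?_⟩
              have h8 : r.2 = (r + n • ((x₀, y) : G × H)).2 - n • y := by
                show r.2 = r.2 + n • y - n • y
                abel
              rw [h8]
              exact AddSubgroup.sub_mem _ h (AddSubgroup.zsmul_mem _ h7 n)
            · rintro ⟨h3, h4⟩
              exact AddSubgroup.add_mem _ h4 (AddSubgroup.zsmul_mem _ h3 n)
          rw [e1, e2, hxy α, (hgood r hr).2 p hp α]
        · have hxq : x₀ ∈ P G q' α := mem_P_of_pow hp hq' hqp hk' α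
          have hyq : y ∈ P H q' α := mem_P_of_pow hp hq' hqp hy' α
          have e1 : (r + n • ((x₀, y) : G × H)).1 ∈ P G q' α ↔ r.1 ∈ P G q' α := by
            show r.1 + n • x₀ ∈ _ ↔ _
            rw [add_comm]
            exact AddSubgroup.add_mem_cancel_left _ (AddSubgroup.zsmul_mem _ hxq n)
          have e2 : (r + n • ((x₀, y) : G × H)).2 ∈ P H q' α ↔ r.2 ∈ P H q' α := by
            show r.2 + n • y ∈ _ ↔ _
            rw [add_comm]
            exact AddSubgroup.add_mem_cancel_left _ (AddSubgroup.zsmul_mem _ hyq n)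
          rw [e1, e2]
          exact (hgood r hr).2 q' hq' α
  · obtain ⟨q, hq, hqx⟩ := (memA _).1 hx₀x
    refine ⟨y - q.2, ?_⟩
    have h3 : ((x₀, y) : G × H) ∈ R' := (memR' _).2 ⟨0, R.zero_mem, 1, by simp⟩
    have h4 := R'.sub_mem h3 ((le_sup_left : R ≤ R') hq)
    have : (x, y - q.2) = ((x₀, y) : G × H) - q := by
      refine Prod.ext ?_ rfl
      show x = x₀ - q.1
      rw [hqx]; abel
    rw [this]
    exact h4

lemma extend_fst (hG : Tors G) (hS : SameInv G H) (x : G) (n : ℕ) (hn : 0 < n) :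
    ∀ {R : AddSubgroup (G × H)}, (R : Set (G × H)).Finite → GoodR R →
    (∃ t, (n • x, t) ∈ R) →
    ∃ R' : AddSubgroup (G × H), R ≤ R' ∧ (R' : Set (G × H)).Finite ∧ GoodR R' ∧
      ∃ y, (x, y) ∈ R' := by
  induction n using Nat.strong_induction_on with
  | _ n ih =>
    intro R hR hgood ⟨t, ht⟩
    by_cases h1 : n = 1
    · subst h1
      exact ⟨R, le_rfl, hR, hgood, t, by simpa using ht⟩
    · obtain ⟨p, hp, m, rfl⟩ := Nat.exists_prime_and_dvd h1
      have hm : 0 < m := Nat.pos_of_ne_zero (by rintro rfl; simp at hn)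
      rw [mul_smul] at ht
      obtain ⟨R₁, h2, h3, h4, y, h5⟩ := extend_prime hp hG hS hR hgood ht
      obtain ⟨R₂, h6, h7, h8, h9⟩ := ih m (by
        have := hp.two_le
        nlinarith) hm h3 h4 ⟨y, h5⟩
      exact ⟨R₂, h2.trans h6, h7, h8, h9⟩

lemma extend_left (hG : Tors G) (hS : SameInv G H) (x : G)
    {R : AddSubgroup (G × H)} (hR : (R : Set (G × H)).Finite) (hgood : GoodR R) :
    ∃ R' : AddSubgroup (G × H), R ≤ R' ∧ (R' : Set (G × H)).Finite ∧ GoodR R' ∧
      ∃ y, (x, y) ∈ R' := by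
  obtain ⟨n, hn, hnx⟩ := hG x
  exact extend_fst hG hS x n hn hR hgood ⟨0, by rw [hnx]; exact R.zero_mem⟩

end

section
variable {G H : Type} [AddCommGroup G] [AddCommGroup H]

/-- The inverse relation. -/
def swapR (R : AddSubgroup (G × H)) : AddSubgroup (H × G) :=
  R.comap (AddMonoidHom.prod (AddMonoidHom.snd H G) (AddMonoidHom.fst H G))

lemma mem_swapR (R : AddSubgroup (G × H)) (q : H × G) : q ∈ swapR R ↔ (q.2, q.1) ∈ R := Iff.rfl

lemma swapR_fin {R : AddSubgroup (G × H)} (hR : (R : Set (G × H)).Finite) :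
    (swapR R : Set (H × G)).Finite := by
  refine (hR.image Prod.swap).subset ?_
  intro q hq
  exact ⟨(q.2, q.1), hq, rfl⟩

lemma swapR_good {R : AddSubgroup (G × H)} (hR : GoodR R) : GoodR (swapR R) := by
  intro q hq
  have := hR _ hq
  exact ⟨this.1.symm, fun p hp α => (this.2 p hp α).symm⟩

lemma SameInv.symm (h : SameInv G H) : SameInv H G :=
  fun p hp => ⟨fun α => ((h p hp).1 α).symm, (h p hp).2.symm⟩

lemma extend_right (hH : Tors H) (hS : SameInv G H) (y : H)
    {R : AddSubgroup (G × H)} (hR : (R : Set (G × H)).Finite) (hgood : GoodR R) :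
    ∃ R' : AddSubgroup (G × H), R ≤ R' ∧ (R' : Set (G × H)).Finite ∧ GoodR R' ∧
      ∃ x, (x, y) ∈ R' := by
  obtain ⟨R', h1, h2, h3, x, h4⟩ := extend_left hH hS.symm y (swapR_fin hR) (swapR_good hgood)
  exact ⟨swapR R', fun q hq => h1 (show (q.2, q.1) ∈ swapR R from hq), swapR_fin h2,
    swapR_good h3, x, h4⟩

/-- Uniqueness theorem for countable torsion abelian groups. -/
theorem ulm [Countable G] [Countable H] (hG : Tors G) (hH : Tors H) (hS : SameInv G H) :
    Nonempty (G ≃+ H) := by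
  obtain ⟨g, hg⟩ := exists_surjective_nat G
  obtain ⟨h, hh⟩ := exists_surjective_nat H
  have hstep : ∀ (n : ℕ) (R : AddSubgroup (G × H)), ((R : Set (G × H)).Finite ∧ GoodR R) →
      ∃ R' : AddSubgroup (G × H), ((R' : Set (G × H)).Finite ∧ GoodR R') ∧ R ≤ R' ∧
        (∃ y, (g n, y) ∈ R') ∧ ∃ x, (x, h n) ∈ R' := by
    rintro n R ⟨h1, h2⟩
    obtain ⟨R₁, a1, a2, a3, y, a4⟩ := extend_left hG hS (g n) h1 h2
    obtain ⟨R₂, b1, b2, b3, b4⟩ := extend_right hH hS (h n) a2 a3
    exact ⟨R₂, ⟨b2, b3⟩, a1.trans b1, ⟨y, b1 a4⟩, b4⟩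
  choose! f hf1 hf2 hf3 hf4 using hstep
  obtain ⟨L, hL0, hLs⟩ : ∃ L : ℕ → AddSubgroup (G × H), L 0 = ⊥ ∧ ∀ s, L (s + 1) = f s (L s) :=
    ⟨fun s => Nat.rec ⊥ (fun s l => f s l) s, rfl, fun s => rfl⟩
  have hL : ∀ s, ((L s : Set (G × H)).Finite ∧ GoodR (L s)) := by
    intro s
    induction s with
    | zero =>
      rw [hL0]
      refine ⟨by simp, ?_⟩
      intro q hq
      rw [AddSubgroup.mem_bot] at hq
      subst hq
      refine ⟨by simp, fun p hp α => ?_⟩
      exact ⟨fun _ => AddSubgroup.zero_mem _, fun _ => AddSubgroup.zero_mem _⟩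
    | succ s ih => rw [hLs]; exact hf1 s _ ih
  have hmono : Monotone L := monotone_nat_of_le_succ fun s => by rw [hLs]; exact hf2 s _ (hL s)
  set W : AddSubgroup (G × H) := ⨆ s, L s with hW
  have memW : ∀ q, q ∈ W ↔ ∃ s, q ∈ L s := fun q =>
    AddSubgroup.mem_iSup_of_directed hmono.directed_le
  have hz : ∀ q ∈ W, q.1 = 0 ↔ q.2 = 0 := by
    intro q hq
    obtain ⟨s, hs⟩ := (memW q).1 hq
    exact ((hL s).2 q hs).1
  have hb1 : Function.Bijective ((AddMonoidHom.fst G H).comp W.subtype) := by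
    constructor
    · rw [injective_iff_map_eq_zero]
      rintro ⟨q, hq⟩ h0
      have h1 : q.1 = 0 := h0
      exact Subtype.ext (Prod.ext h1 ((hz q hq).1 h1))
    · intro x
      obtain ⟨n, rfl⟩ := hg x
      obtain ⟨y, hy⟩ := hf3 n _ (hL n)
      rw [← hLs] at hy
      exact ⟨⟨_, (memW _).2 ⟨_, hy⟩⟩, rfl⟩
  have hb2 : Function.Bijective ((AddMonoidHom.snd G H).comp W.subtype) := by
    constructor
    · rw [injective_iff_map_eq_zero]
      rintro ⟨q, hq⟩ h0
      have h1 : q.2 = 0 := h0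
      exact Subtype.ext (Prod.ext ((hz q hq).2 h1) h1)
    · intro y
      obtain ⟨n, rfl⟩ := hh y
      obtain ⟨x, hx⟩ := hf4 n _ (hL n)
      rw [← hLs] at hx
      exact ⟨⟨_, (memW _).2 ⟨_, hx⟩⟩, rfl⟩
  exact ⟨(AddEquiv.ofBijective _ hb1).symm.trans (AddEquiv.ofBijective _ hb2)⟩

/-- First test problem. -/
theorem test_a [Countable G] [Countable H] (hG : Tors G) (hH : Tors H)
    (e : (G × G) ≃+ (H × H)) : Nonempty (G ≃+ H) := by
  refine ulm hG hH fun p hp => ⟨fun α => ?_, ?_⟩
  · have h1 := inv_equiv (p := p) e α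
    rw [inv_prod, inv_prod] at h1
    exact Nat.mul_self_inj.1 h1
  · have h1 := Sinf_equiv (p := p) e
    rw [Sinf_prod, Sinf_prod] at h1
    exact Nat.mul_self_inj.1 h1

/-- Second test problem. -/
theorem test_b {K L : Type} [AddCommGroup K] [AddCommGroup L] [Countable G] [Countable H]
    (hG : Tors G) (hH : Tors H)
    (e : H ≃+ (G × K)) (e' : G ≃+ (H × L)) : Nonempty (G ≃+ H) := by
  refine ulm hG hH fun p hp => ⟨fun α => ?_, ?_⟩
  · have h1 := inv_equiv (p := p) e α
    have h2 := inv_equiv (p := p) e' α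
    rw [inv_prod] at h1 h2
    exact Nat.dvd_antisymm (Dvd.intro _ h1.symm) (Dvd.intro _ h2.symm)
  · have h1 := Sinf_equiv (p := p) e
    have h2 := Sinf_equiv (p := p) e'
    rw [Sinf_prod] at h1 h2
    exact Nat.dvd_antisymm (Dvd.intro _ h1.symm) (Dvd.intro _ h2.symm)

end

end H674.Ulm
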