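import Mathlib
import Pool.Agent.H674R2.UC
import Pool.Agent.H674R2.UD
import Pool.Agent.H674R2.UU3

/-!
The model.
-/

namespace H674.UF

open Filter Topology Classical
open Pool.Agent.Helper317.SOA Pool.Agent.Helper317.PM
open H674.Beta H674.UD H674.Ulm

section
variable (G H : CGroup)

instance : Add G.dom := ⟨fun a b => ⟨G.add a b, G.add_mem _ a.2 _ b.2⟩⟩
instance : Zero G.dom := ⟨⟨G.zero, G.zero_mem⟩⟩
instance : Neg G.dom := ⟨fun a => ⟨G.neg a, G.neg_mem _ a.2⟩⟩

instance : AddCommGroup G.dom where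
  add_assoc a b c := Subtype.ext (G.add_assoc _ a.2 _ b.2 _ c.2)
  zero_add a := Subtype.ext (G.zero_add _ a.2)
  add_zero a := Subtype.ext ((G.add_comm _ a.2 _ G.zero_mem).trans (G.zero_add _ a.2))
  neg_add_cancel a := Subtype.ext (G.neg_add _ a.2)
  add_comm a b := Subtype.ext (G.add_comm _ a.2 _ b.2)
  nsmul := nsmulRec
  zsmul := zsmulRec

lemma coe_add (a b : G.dom) : ((a + b : G.dom) : ℕ) = G.add a b := rfl
lemma coe_zero : ((0 : G.dom) : ℕ) = G.zero := rfl

lemma coe_nsmul (n : ℕ) (a : G.dom) : ((n • a : G.dom) : ℕ) = G.mult n a := by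
  induction n with
  | zero => rw [zero_smul]; rfl
  | succ n ih => rw [succ_nsmul, coe_add, ih]; rfl

variable {G H}

lemma tors_of (h : G.Torsion) : Tors G.dom := by
  intro a
  obtain ⟨n, hn, h1⟩ := h a a.2
  exact ⟨n, hn, Subtype.ext ((coe_nsmul G n a).trans h1)⟩

/-- The direct sum is the product. -/
def sumEquiv (G H : CGroup) : (G.sum H).dom ≃+ (G.dom × H.dom) where
  toFun x := (⟨x.1.unpair.1, x.2.1⟩, ⟨x.1.unpair.2, x.2.2⟩)
  invFun x := ⟨Nat.pair x.1 x.2, by
    show (Nat.pair x.1 x.2).unpair.1 ∈ G.dom ∧ (Nat.pair x.1 x.2).unpair.2 ∈ H.dom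
    simp⟩
  left_inv x := Subtype.ext (by simp)
  right_inv x := by simp
  map_add' x y := by
    refine Prod.ext (Subtype.ext ?_) (Subtype.ext ?_)
    · show (Nat.pair _ _).unpair.1 = _
      rw [Nat.unpair_pair]; rfl
    · show (Nat.pair _ _).unpair.2 = _
      rw [Nat.unpair_pair]; rfl

lemma equiv_of {S : Set (Set ℕ)} (h : IsoIn S G H) : Nonempty (G.dom ≃+ H.dom) := by
  obtain ⟨f, -, h1, h2, h3, h4⟩ := h
  refine ⟨AddEquiv.ofBijective (AddMonoidHom.mk' (fun a : G.dom => (⟨f a, h1 a a.2⟩ : H.dom)) ?_) ?_⟩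
  · intro a b
    exact Subtype.ext (h4 a a.2 b b.2)
  · constructor
    · intro a b hab
      exact Subtype.ext (h2 a a.2 b b.2 (congrArg Subtype.val hab))
    · intro b
      obtain ⟨a, ha, hab⟩ := h3 b b.2
      exact ⟨⟨a, ha⟩, Subtype.ext hab⟩

end

/-- Closed relation used for isomorphisms. -/
def Riso : Set (B × B × B) :=
  {q | ∀ a b c : ℕ,
    (q.1 (2 * a) = 1 → q.2.1 (2 * q.2.2 (4 * a)) = 1 ∧ q.2.2 (4 * q.2.2 (4 * a) + 2) = a) ∧
    (q.2.1 (2 * a) = 1 → q.1 (2 * q.2.2 (4 * a + 2)) = 1 ∧ q.2.2 (4 * q.2.2 (4 * a + 2)) = a) ∧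
    (q.1 (2 * Nat.pair (Nat.pair a b) c + 1) = 1 →
      q.2.1 (2 * Nat.pair (Nat.pair (q.2.2 (4 * a)) (q.2.2 (4 * b))) (q.2.2 (4 * c)) + 1) = 1) ∧
    q.2.2 (2 * a + 1) = if q.1 (2 * a.unpair.1) = 1 ∧ q.2.2 (4 * a.unpair.1) = a.unpair.2
      then 1 else 0}

lemma cev {X : Type} [TopologicalSpace X] {f : X → B} {g : X → ℕ} (hf : Continuous f)
    (hg : Continuous g) : Continuous fun x => f x (g x) :=
  continuous_ev.comp (hf.prodMk hg)

lemma cfun {X : Type} [TopologicalSpace X] {g : X → ℕ} (hg : Continuous g) (h : ℕ → ℕ) :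
    Continuous fun x => h (g x) :=
  (continuous_of_discreteTopology (f := h)).comp hg

lemma cfun2 {X : Type} [TopologicalSpace X] {g g' : X → ℕ} (hg : Continuous g)
    (hg' : Continuous g') (h : ℕ → ℕ → ℕ) :
    Continuous fun x => h (g x) (g' x) :=
  (continuous_of_discreteTopology (f := fun q : ℕ × ℕ => h q.1 q.2)).comp (hg.prodMk hg')

lemma closed1 {X : Type} [TopologicalSpace X] {g : X → ℕ} (hg : Continuous g) (Pr : ℕ → Prop) :
    IsClosed {x | Pr (g x)} := (isClosed_discrete {n | Pr n}).preimage hg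

lemma closed2 {X : Type} [TopologicalSpace X] {g g' : X → ℕ} (hg : Continuous g)
    (hg' : Continuous g') (Pr : ℕ → ℕ → Prop) :
    IsClosed {x | Pr (g x) (g' x)} :=
  (isClosed_discrete {n : ℕ × ℕ | Pr n.1 n.2}).preimage (hg.prodMk hg')

lemma closed3 {X : Type} [TopologicalSpace X] {g g' g'' : X → ℕ} (hg : Continuous g)
    (hg' : Continuous g') (hg'' : Continuous g'') (Pr : ℕ → ℕ → ℕ → Prop) :
    IsClosed {x | Pr (g x) (g' x) (g'' x)} :=
  (isClosed_discrete {n : ℕ × ℕ × ℕ | Pr n.1 n.2.1 n.2.2}).preimage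
    (hg.prodMk (hg'.prodMk hg''))

lemma Riso_closed : IsClosed Riso := by
  have : Riso = ⋂ a : ℕ, ⋂ b : ℕ, ⋂ c : ℕ,
    ({q : B × B × B | q.1 (2 * a) = 1 →
      q.2.1 (2 * q.2.2 (4 * a)) = 1 ∧ q.2.2 (4 * q.2.2 (4 * a) + 2) = a} ∩
    ({q : B × B × B | q.2.1 (2 * a) = 1 →
      q.1 (2 * q.2.2 (4 * a + 2)) = 1 ∧ q.2.2 (4 * q.2.2 (4 * a + 2)) = a} ∩
    ({q : B × B × B | q.1 (2 * Nat.pair (Nat.pair a b) c + 1) = 1 →
      q.2.1 (2 * Nat.pair (Nat.pair (q.2.2 (4 * a)) (q.2.2 (4 * b))) (q.2.2 (4 * c)) + 1) = 1} ∩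
    {q : B × B × B | q.2.2 (2 * a + 1) =
      if q.1 (2 * a.unpair.1) = 1 ∧ q.2.2 (4 * a.unpair.1) = a.unpair.2 then 1 else 0}))) := by
    ext q
    simp [Riso]
  rw [this]
  have c1 : ∀ n, Continuous fun q : B × B × B => q.1 n := fun n => by fun_prop
  have c2 : ∀ n, Continuous fun q : B × B × B => q.2.1 n := fun n => by fun_prop
  have c3 : ∀ n, Continuous fun q : B × B × B => q.2.2 n := fun n => by fun_prop
  have d1 : Continuous fun q : B × B × B => q.1 := by fun_prop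
  have d2 : Continuous fun q : B × B × B => q.2.1 := by fun_prop
  have d3 : Continuous fun q : B × B × B => q.2.2 := by fun_prop
  refine isClosed_iInter fun a => isClosed_iInter fun b => isClosed_iInter fun c => ?_
  refine IsClosed.inter ?_ (IsClosed.inter ?_ (IsClosed.inter ?_ ?_))
  · exact closed3 (c1 (2 * a)) (cev d2 (cfun (c3 (4 * a)) fun n => 2 * n))
      (cev d3 (cfun (c3 (4 * a)) fun n => 4 * n + 2)) (fun x y z => x = 1 → y = 1 ∧ z = a)
  · exact closed3 (c2 (2 * a)) (cev d1 (cfun (c3 (4 * a + 2)) fun n => 2 * n))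
      (cev d3 (cfun (c3 (4 * a + 2)) fun n => 4 * n)) (fun x y z => x = 1 → y = 1 ∧ z = a)
  · exact closed2 (c1 (2 * Nat.pair (Nat.pair a b) c + 1))
      (cev d2 (cfun2 (cfun2 (c3 (4 * a)) (c3 (4 * b)) Nat.pair) (c3 (4 * c))
        (fun x y => 2 * Nat.pair x y + 1)))
      (fun x y => x = 1 → y = 1)
  · exact closed3 (c3 (2 * a + 1)) (c1 (2 * a.unpair.1)) (c3 (4 * a.unpair.1))
      (fun x y z => x = if y = 1 ∧ z = a.unpair.2 then 1 else 0)

/-- The code of a group. -/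
noncomputable def code (G : CGroup) : B := fun n =>
  if n % 2 = 0 then ind G.dom (n / 2) else
    ind {x | ∃ a ∈ G.dom, ∃ b ∈ G.dom, x = Nat.pair (Nat.pair a b) (G.add a b)} (n / 2)

lemma code_even (G : CGroup) (n : ℕ) : code G (2 * n) = ind G.dom n := by
  have e1 : 2 * n % 2 = 0 := by omega
  have e2 : 2 * n / 2 = n := by omega
  simp [code, e2]

lemma code_odd (G : CGroup) (n : ℕ) : code G (2 * n + 1) =
    ind {x | ∃ a ∈ G.dom, ∃ b ∈ G.dom, x = Nat.pair (Nat.pair a b) (G.add a b)} n := by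
  have e1 : (2 * n + 1) % 2 = 1 := by omega
  have e2 : (2 * n + 1) / 2 = n := by omega
  simp [code, e2]

lemma code_mem {S : Set B} (hS : Good S) {G : CGroup} (hG : G.In (MS S)) : code G ∈ S :=
  hS.op .join _ hG.dom _ hG.add

lemma iso_transfer {S : Set B} (hS : Good S)
    (hiso : ∀ x ∈ S, ∀ y ∈ S, (∃ w, (x, y, w) ∈ Riso) → ∃ w ∈ S, (x, y, w) ∈ Riso)
    {G H : CGroup} (hG : G.In (MS S)) (hH : H.In (MS S)) (e : G.dom ≃+ H.dom) :
    IsoIn (MS S) G H := by
  have hex : ∃ w, (code G, code H, w) ∈ Riso := by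
    set f : ℕ → ℕ := fun a => if h : a ∈ G.dom then e ⟨a, h⟩ else 0 with hf
    set g : ℕ → ℕ := fun a => if h : a ∈ H.dom then e.symm ⟨a, h⟩ else 0 with hg
    have hf1 : ∀ a (h : a ∈ G.dom), f a = e ⟨a, h⟩ := fun a h => dif_pos h
    have hg1 : ∀ a (h : a ∈ H.dom), g a = e.symm ⟨a, h⟩ := fun a h => dif_pos h
    refine ⟨fun n => if n % 4 = 0 then f (n / 4) else if n % 4 = 2 then g (n / 4) else
      ind {x | ∃ a ∈ G.dom, x = Nat.pair a (f a)} (n / 2), ?_⟩
    have w0 : ∀ n, (fun n => if n % 4 = 0 then f (n / 4) else if n % 4 = 2 then g (n / 4) else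
      ind {x | ∃ a ∈ G.dom, x = Nat.pair a (f a)} (n / 2)) (4 * n) = f n := by
      intro n
      have e1 : 4 * n % 4 = 0 := by omega
      have e2 : 4 * n / 4 = n := by omega
      simp [e2]
    have w2 : ∀ n, (fun n => if n % 4 = 0 then f (n / 4) else if n % 4 = 2 then g (n / 4) else
      ind {x | ∃ a ∈ G.dom, x = Nat.pair a (f a)} (n / 2)) (4 * n + 2) = g n := by
      intro n
      have e1 : (4 * n + 2) % 4 = 2 := by omega
      have e2 : (4 * n + 2) / 4 = n := by omega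
      simp [e2]
    have w1 : ∀ n, (fun n => if n % 4 = 0 then f (n / 4) else if n % 4 = 2 then g (n / 4) else
      ind {x | ∃ a ∈ G.dom, x = Nat.pair a (f a)} (n / 2)) (2 * n + 1) =
        ind {x | ∃ a ∈ G.dom, x = Nat.pair a (f a)} n := by
      intro n
      have e1 : (2 * n + 1) % 4 ≠ 0 := by omega
      have e1' : (2 * n + 1) % 4 ≠ 2 := by omega
      have e2 : (2 * n + 1) / 2 = n := by omega
      simp [e1, e1', e2]
    generalize (fun n => if n % 4 = 0 then f (n / 4) else if n % 4 = 2 then g (n / 4) else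
      ind {x | ∃ a ∈ G.dom, x = Nat.pair a (f a)} (n / 2)) = w at w0 w1 w2
    intro a b c
    simp only [w0, w1, w2, code_even, code_odd, ind_eq_one]
    refine ⟨?_, ?_, ?_, ?_⟩
    · intro ha
      rw [hf1 a ha]
      refine ⟨(e ⟨a, ha⟩).2, ?_⟩
      rw [hg1 _ (e ⟨a, ha⟩).2]
      simp
    · intro ha
      rw [hg1 a ha]
      refine ⟨(e.symm ⟨a, ha⟩).2, ?_⟩
      rw [hf1 _ (e.symm ⟨a, ha⟩).2]
      simp
    · rintro ⟨a', ha', b', hb', h⟩
      obtain ⟨h1, rfl⟩ := Nat.pair_eq_pair.1 h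
      obtain ⟨rfl, rfl⟩ := Nat.pair_eq_pair.1 h1
      refine ⟨f a, by rw [hf1 a ha']; exact (e _).2, f b, by rw [hf1 b hb']; exact (e _).2, ?_⟩
      congr 1
      rw [hf1 a ha', hf1 b hb', hf1 _ (G.add_mem _ ha' _ hb')]
      rw [← coe_add, ← map_add]
      rfl
    · unfold ind
      refine if_congr ?_ rfl rfl
      constructor
      · rintro ⟨a', ha', h⟩
        rw [h]
        simp only [Nat.unpair_pair]
        exact ⟨ha', trivial⟩
      · rintro ⟨h1, h2⟩
        refine ⟨_, h1, ?_⟩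
        rw [h2, Nat.pair_unpair]
  obtain ⟨w, hwS, hw⟩ := hiso _ (code_mem hS hG) _ (code_mem hS hH) hex
  have k1 : ∀ a ∈ G.dom, w (4 * a) ∈ H.dom ∧ w (4 * w (4 * a) + 2) = a := by
    intro a ha
    have := (hw a 0 0).1
    simp only [code_even, ind_eq_one] at this
    exact this ha
  have k2 : ∀ a ∈ H.dom, w (4 * a + 2) ∈ G.dom ∧ w (4 * w (4 * a + 2)) = a := by
    intro a ha
    have := (hw a 0 0).2.1
    simp only [code_even, ind_eq_one] at this
    exact this ha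
  have k3 : ∀ a ∈ G.dom, ∀ b ∈ G.dom, w (4 * G.add a b) = H.add (w (4 * a)) (w (4 * b)) := by
    intro a ha b hb
    have := (hw a b (G.add a b)).2.2.1
    simp only [code_odd, ind_eq_one] at this
    obtain ⟨a', ha', b', hb', h⟩ := this ⟨a, ha, b, hb, rfl⟩
    obtain ⟨h1, h2⟩ := Nat.pair_eq_pair.1 h
    obtain ⟨rfl, rfl⟩ := Nat.pair_eq_pair.1 h1
    exact h2
  refine ⟨fun a => w (4 * a), ?_, fun a ha => (k1 a ha).1, ?_, ?_, k3⟩
  · show ind _ ∈ S
    have := hS.op .dbl1 w hwS w hwS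
    convert this using 1
    funext n
    show _ = w (2 * n + 1)
    have h1 := (hw n 0 0).2.2.2
    simp only [code_even, ind_eq_one] at h1
    rw [h1]
    unfold ind
    refine if_congr ?_ rfl rfl
    constructor
    · rintro ⟨a', ha', h⟩
      rw [h]
      simp only [Nat.unpair_pair]
      exact ⟨ha', trivial⟩
    · rintro ⟨h1, h2⟩
      refine ⟨_, h1, ?_⟩
      show n = Nat.pair _ (w _)
      rw [h2, Nat.pair_unpair]
  · intro a ha b hb h
    rw [← (k1 a ha).2, ← (k1 b hb).2]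
    simp only at h
    rw [h]
  · intro b hb
    exact ⟨_, (k2 b hb).1, (k2 b hb).2⟩

/-- Index type of all relations. -/
inductive Idx
  | op (o : Op)
  | all (i : ℕ)
  | tree (i : ℕ)
  | iso

deriving instance Countable for Idx

noncomputable def Rel : Idx → Set (B × B × B)
  | .op o => {q | q.2.2 = opf o (q.1, q.2.1)}
  | .all i => Rall i
  | .tree i => Rtree i
  | .iso => Riso

lemma Rel_closed (i : Idx) : IsClosed (Rel i) := by
  cases i with
  | op o =>
    have := opf_cont o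
    exact isClosed_eq (f := fun q : B × B × B => q.2.2) (by fun_prop)
      (this.comp (by fun_prop : Continuous fun q : B × B × B => (q.1, q.2.1)))
  | all i => exact Rall_closed i
  | tree i => exact Rtree_closed i
  | iso => exact Riso_closed

theorem main : ∃ S : Set (Set ℕ), RCA0 (omega S) ∧ ACA (omega S) ∧ TestA S ∧ TestB S ∧
    ¬ Pi11CA (omega S) := by
  obtain ⟨S, u, hu, hR, hz⟩ := beta_omit Rel Rel_closed
  have hS : Good S :=
    { op := by
        intro o x hx y hy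
        obtain ⟨w, hw, h⟩ := hR (.op o) x hx y hy ⟨opf o (x, y), rfl⟩
        have h' : w = opf o (x, y) := h
        rw [← h']; exact hw
      all := fun i => hR (.all i)
      tree := fun i => hR (.tree i)
      ne := ⟨u, hu⟩ }
  have haca := aca_of_good hS
  refine ⟨MS S, rca0_of_aca haca, haca, ?_, ?_, not_pi11 hS hu hz⟩
  · intro G H hG hH tG tH h
    obtain ⟨e⟩ := equiv_of h
    obtain ⟨e'⟩ := test_a (tors_of tG) (tors_of tH)
      (((sumEquiv G G).symm.trans e).trans (sumEquiv H H))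
    exact iso_transfer hS (hR .iso) hG hH e'
  · rintro G H hG hH tG tH ⟨K, -, h⟩ ⟨L, -, h'⟩
    obtain ⟨e⟩ := equiv_of h
    obtain ⟨e'⟩ := equiv_of h'
    obtain ⟨e''⟩ := test_b (tors_of tG) (tors_of tH)
      (e.trans (sumEquiv G K)) (e'.trans (sumEquiv H L))
    exact iso_transfer hS (hR .iso) hG hH e''

end H674.UF
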